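import Pool.Agent.Lib_MP_2c424f_thr.DefsB
import Pool.Agent.Lib_MP_2c424f_cor.Defs

/-!
# MP_2c424f_pr, corners in the linear regime: definitions

Paper proof: `/team-store/lincor_proof.md`.  Even `q` with `1000 ≤ a = 2 d / q ≤ 2000`.
-/

set_option autoImplicit false

open Finset Filter

namespace Pool.Agent.LC

open Pool.Agent.LO Pool.Agent.LIN Pool.Agent.THR Pool.Agent.COR

/-! ## Regime -/

/-- `q` even and `1000 ≤ 2 d / q ≤ 2000` -/
def Rg (d q : ℕ) : Prop := Even q ∧ 1000 * q ≤ 2 * d ∧ 2 * d ≤ 2000 * q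

/-- for `d` large, all `q` in the regime and all large `k` -/
def EvR (P : ℕ → ℕ → ℕ → Prop) : Prop :=
  ∃ d₀ : ℕ, ∀ d q : ℕ, d₀ ≤ d → Rg d q → ∀ᶠ k : ℕ in atTop, P d k q

open scoped Classical in
/-- the mean-field magnetisation: a solution of `m = tanh (a m)`, `m > 0` -/
noncomputable def ms (d q : ℕ) : ℝ := if h : ∃ m : ℝ, MFE (ra d q) m then h.choose else 0

/-- `ε = e^{-a} / a` -/
noncomputable def ep (d q : ℕ) : ℝ := Real.exp (-ra d q) / ra d q

/-- precision of the labels -/
noncomputable def et : ℝ := 1 / 1000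

/-! ## Local statistics of colourings of a graph -/

section graph
variable {V : Type} [Fintype V] {q : ℕ}

open scoped Classical in
/-- neighbours -/
noncomputable def nb (X : SimpleGraph V) (v : V) : Finset V := univ.filter fun x => X.Adj v x

open scoped Classical in
/-- colours which no neighbour of `v` has -/
noncomputable def Rv (X : SimpleGraph V) (F : V → Fin q) (v : V) : Finset (Fin q) :=
  univ.filter fun c => ∀ x, X.Adj v x → F x ≠ c

open scoped Classical in
/-- colours which no neighbour of `v`, except `w`, has -/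
noncomputable def Rc (X : SimpleGraph V) (F : V → Fin q) (v w : V) : Finset (Fin q) :=
  univ.filter fun c => ∀ x, X.Adj v x → x ≠ w → F x ≠ c

open scoped Classical in
/-- number of neighbours of `v` with colour `c` -/
noncomputable def nv (X : SimpleGraph V) (F : V → Fin q) (v : V) (c : Fin q) : ℕ :=
  (univ.filter fun x => X.Adj v x ∧ F x = c).card

open scoped Classical in
/-- number of neighbours of `v`, except `w`, with colour `c` -/
noncomputable def nc (X : SimpleGraph V) (F : V → Fin q) (v w : V) (c : Fin q) : ℕ :=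
  (univ.filter fun x => X.Adj v x ∧ x ≠ w ∧ F x = c).card

/-- `(v, c)` is of type `S`: the colour `c` is used at the sites of the parity of `v`
(`A`: colours of the even sites); otherwise it is of type `B` -/
def tS (ev : V → Prop) (A : Finset (Fin q)) (v : V) (c : Fin q) : Prop := ev v ↔ c ∈ A

open scoped Classical in
/-- typical site, conditions on the second neighbours -/
structure TyO (d : ℕ) (X : SimpleGraph V) (ev : V → Prop) (A : Finset (Fin q)) (F : V → Fin q) (v : V) : Prop where
  o1 : ∀ c, tS ev A v c → (((nb X v).filter fun x => c ∈ Rc X F x v).card : ℝ) ≤ ep d q * (2 * d)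
  o2 : ∀ c, ∑ x ∈ nb X v, (nc X F x v c : ℝ) ^ 2 ≤ 20 * ra d q ^ 2 * (2 * d)
  o3 : ∀ c, ¬ tS ev A v c → ∑ x ∈ nb X v, (nc X F x v c : ℝ) ≤ Real.exp (-ra d q / 2) * (2 * d)

open scoped Classical in
/-- typical site, conditions on the neighbours -/
structure TyE (d : ℕ) (X : SimpleGraph V) (ev : V → Prop) (A : Finset (Fin q)) (F : V → Fin q) (v : V) : Prop where
  e1 : (q : ℝ) / 3 ≤ ((Rv X F v).card : ℝ)
  e2 : (((Rv X F v).filter fun c => ¬ tS ev A v c).card : ℝ) ≤ Real.exp (-ra d q) * q
  e3 : ∑ c, (nv X F v c : ℝ) ^ 4 ≤ 1000 * ra d q ^ 4 * q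
  e4 : ∑ c ∈ univ.filter (fun c => tS ev A v c), (nv X F v c : ℝ) ^ 2 ≤ Real.exp (-ra d q / 2) * q

/-- typical site -/
def Ty (d : ℕ) (X : SimpleGraph V) (ev : V → Prop) (A : Finset (Fin q)) (F : V → Fin q) (v : V) : Prop :=
  TyO d X ev A F v ∧ TyE d X ev A F v

end graph

/-! ## Patterns of closed 2-blocks -/

/-- a pattern: colours of the points `(a, b)` of a closed block -/
abbrev Pat (d q : ℕ) := Bt d → Bt d → Fin q

open scoped Classical in
/-- even pairs of bit vectors in the shape -/
noncomputable def eS {d : ℕ} (s : Shp d) : Finset (Bt d × Bt d) := univ.filter fun p => ¬ od p.1 p.2 ∧ inS s p.1 p.2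

open scoped Classical in
/-- `q` times the frequency of the colour `c` at the odd (`e = false`) or even (`e = true`) points of the shape -/
noncomputable def frq {d q : ℕ} (e : Bool) (s : Shp d) (c : Fin q) (g : Pat d q) : ℝ :=
  (∑ p ∈ (if e then eS s else oS s), if g p.1 p.2 = c then (q : ℝ) else 0) / (((if e then eS s else oS s).card : ℕ) : ℝ)

/-- the label of the colour `c`: `hi = true`: the colour is used at the odd points, `hi = false`: at the even points -/
def st {d q : ℕ} (η : ℝ) (hi : Bool) (c : Fin q) (g : Pat d q) : Prop :=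
  ∀ s : Shp d, |frq (!hi) s c g - (1 + ms d q)| ≤ η ∧ |frq hi s c g - (1 - ms d q)| ≤ η

/-- no label -/
def bdP {d q : ℕ} (η : ℝ) (c : Fin q) (g : Pat d q) : Prop := ¬ st η true c g ∧ ¬ st η false c g

/-- every colour has a label -/
def G0P {d q : ℕ} (g : Pat d q) : Prop := ∀ c, ¬ bdP et c g

open scoped Classical in
/-- the colours which are used at the even points -/
noncomputable def ALP {d q : ℕ} (g : Pat d q) : Finset (Fin q) := univ.filter fun c => st et false c g

/-- good pattern -/
def GDP {d q : ℕ} (g : Pat d q) : Prop := G0P g ∧ (ALP g).card = q / 2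

/-- unbalanced pattern -/
def UBP {d q : ℕ} (g : Pat d q) : Prop := G0P g ∧ (ALP g).card ≠ q / 2

/-- the two kinds of bad patterns: a colour without label (`some c`), unbalanced (`none`) -/
def BDP {d q : ℕ} (τ : Option (Fin q)) (g : Pat d q) : Prop :=
  match τ with
  | some c => bdP et c g
  | none => UBP g

/-! ## The torus -/

/-- the graph of the torus -/
noncomputable def tG (d k : ℕ) : SimpleGraph (Site d k) := gV univ

/-- the pattern of a block -/
def pat {d k q : ℕ} (f : Site d (k + 1) → Fin q) (t : Blk d k) : Pat d q := fun a b => f (pt t a b)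

open scoped Classical in
/-- number of the points of the good blocks which are not typical with respect to the labels of the block -/
noncomputable def nAt {d k q : ℕ} (f : Site d (k + 1) → Fin q) : ℕ :=
  (univ.filter fun p : Blk d k × Bt d × Bt d => G0P (pat f p.1) ∧
    ¬ Ty d (tG d (k + 1)) evn (ALP (pat f p.1)) f (pt p.1 p.2.1 p.2.2)).card

/-! ## Boxes -/

/-- vertices of the box `{0..l}^d` -/
abbrev BxV (d l : ℕ) := Fin d → Fin (l + 1)

/-- the graph of the box -/
def bG (d l : ℕ) : SimpleGraph (BxV d l) where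
  Adj x y := ∃ i, (∀ j, j ≠ i → x j = y j) ∧ ((x i).val + 1 = (y i).val ∨ (y i).val + 1 = (x i).val)
  symm := ⟨fun _ _ ⟨i, h, h'⟩ => ⟨i, fun j hj => (h j hj).symm, h'.symm⟩⟩
  loopless := ⟨fun x ⟨i, _, h'⟩ => by rcases h' with h' | h' <;> omega⟩

/-- even vertices of the box -/
def bev {d l : ℕ} (x : BxV d l) : Prop := Even (∑ i, (x i).val)

/-- `0` or `1` -/
def b01 (a : Bool) : ℕ := if a then 1 else 0

/-- points of the closed 2-blocks of the box -/
def bpt {d l : ℕ} (t : Fin d → Fin (l / 2)) (a b : Bt d) : BxV d l := fun i =>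
  ⟨2 * (t i).val + b01 (a i) + b01 (b i), by
    have h := (t i).isLt
    have h1 : b01 (a i) ≤ 1 := by unfold b01; split_ifs <;> omega
    have h2 : b01 (b i) ≤ 1 := by unfold b01; split_ifs <;> omega
    omega⟩

/-- distance at least `m` from the boundary -/
def inn {d l : ℕ} (m : ℕ) (x : BxV d l) : Prop := ∀ i, m ≤ (x i).val ∧ (x i).val + m ≤ l

open scoped Classical in
/-- the box event: too many bad blocks or too many atypical points -/
def EvB {d l q : ℕ} (K : ℕ) (f : BxV d l → Fin q) : Prop :=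
  ((l / 2 : ℕ) : ℝ) ^ d / (d : ℝ) ^ K <
      ((univ.filter fun t : Fin d → Fin (l / 2) => ¬ GDP (fun a b => f (bpt t a b))).card : ℝ) ∨
  4 ^ d * ((l / 2 : ℕ) : ℝ) ^ d / (d : ℝ) ^ K <
      ((univ.filter fun p : (Fin d → Fin (l / 2)) × Bt d × Bt d => inn 3 (bpt p.1 p.2.1 p.2.2) ∧
        G0P (fun a b => f (bpt p.1 a b)) ∧
        ¬ Ty d (bG d l) bev (ALP (fun a b => f (bpt p.1 a b))) f (bpt p.1 p.2.1 p.2.2)).card : ℝ)

/-! ## Cells in a graph -/

section cells
variable {V : Type} [Fintype V]

/-- disjoint induced boxes of side `l`; only their boundary has neighbours outside -/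
structure Cells (d l : ℕ) (X : SimpleGraph V) (ev : V → Prop) {ι : Type} (κ : ι → BxV d l → V) : Prop where
  inj : ∀ j j' u u', κ j u = κ j' u' → j = j' ∧ u = u'
  adj : ∀ j u u', X.Adj (κ j u) (κ j u') ↔ (bG d l).Adj u u'
  cl : ∀ j u, inn 1 u → ∀ v, X.Adj (κ j u) v → ∃ u', v = κ j u'
  par : ∀ j u, ev (κ j u) ↔ bev u

/-! ## Layers -/

/-- `Λ` is a layer in two copies `i false`, `i true` in `X`; levels `0, …, h - 1`; outside neighbours only at the two
end levels; `X'` is `X` with the outside neighbours of the copies exchanged at level `0` -/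
structure Layer {Λ : Type} (h : ℕ) (X X' : SimpleGraph V) (ev : V → Prop) (G : SimpleGraph Λ) (lv : Λ → ℕ)
    (i : Bool → Λ → V) : Prop where
  inj : ∀ b b' p p', i b p = i b' p' → b = b' ∧ p = p'
  lt : ∀ p, lv p < h
  lvl : ∀ p p', G.Adj p p' → lv p ≤ lv p' + 1
  par : ∀ p, ev (i true p) ↔ ev (i false p)
  adj : ∀ b b' p p', X.Adj (i b p) (i b' p') ↔ b = b' ∧ G.Adj p p'
  adj' : ∀ b b' p p', X'.Adj (i b p) (i b' p') ↔ b = b' ∧ G.Adj p p'
  out : ∀ b p v, (∀ b' p', v ≠ i b' p') → X.Adj v (i b p) → lv p = 0 ∨ lv p + 1 = h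
  oo : ∀ v w, (∀ b' p', v ≠ i b' p') → (∀ b' p', w ≠ i b' p') → (X'.Adj v w ↔ X.Adj v w)
  oi : ∀ b p v, (∀ b' p', v ≠ i b' p') → (X'.Adj v (i b p) ↔ X.Adj v (i (if lv p = 0 then !b else b) p))

end cells

end Pool.Agent.LC
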