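import Mathlib

/-!
# Lovász local lemma on a product of finite sets (abstract; used in Part III)

Configurations `ω : ι → α` with `ω i ∈ S i`; `cnt S E` is the number of those with the property `E`.
* `cnt_indep`: events which depend on disjoint sets of coordinates are independent;
* `lll`: general local lemma, `∏ (1 - x k) ≤ P(no event)`;
* `lll_exp`: if `∑_{k : i ∈ V k} 4^{|V k|} p k ≤ 1/4` for every coordinate `i`, then
  `exp (-2 ∑ 4^{|V k|} p k) ≤ P(no event)`.
-/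

set_option autoImplicit false
set_option linter.unusedSectionVars false

open Finset

namespace Pool.Agent.LC

section lll
variable {ι α κ : Type*} [Fintype ι] [DecidableEq ι] [DecidableEq α] [DecidableEq κ]

/-- the property `E` depends only on the coordinates in `V` -/
def dep (V : Finset ι) (E : (ι → α) → Prop) : Prop :=
  ∀ ω ω', (∀ i ∈ V, ω i = ω' i) → (E ω ↔ E ω')

open scoped Classical in
/-- number of configurations with the property `E` -/
noncomputable def cnt (S : ι → Finset α) (E : (ι → α) → Prop) : ℝ :=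
  (((Fintype.piFinset S).filter E).card : ℝ)

theorem dep_mono {V W : Finset ι} (h : V ⊆ W) {E : (ι → α) → Prop} (hE : dep V E) : dep W E :=
  fun ω ω' h' => hE ω ω' fun i hi => h' i (h hi)

theorem dep_not {V : Finset ι} {E : (ι → α) → Prop} (hE : dep V E) : dep V fun ω => ¬ E ω :=
  fun ω ω' h' => not_congr (hE ω ω' h')

theorem dep_forall {V : Finset ι} {E : κ → (ι → α) → Prop} (T : Finset κ) (hE : ∀ k ∈ T, dep V (E k)) :
    dep V fun ω => ∀ k ∈ T, E k ω :=
  fun ω ω' h' => ⟨fun h k hk => (hE k hk ω ω' h').1 (h k hk), fun h k hk => (hE k hk ω ω' h').2 (h k hk)⟩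

theorem cnt_nonneg (S : ι → Finset α) (E : (ι → α) → Prop) : 0 ≤ cnt S E := Nat.cast_nonneg _

theorem cnt_mono {S : ι → Finset α} {E G : (ι → α) → Prop} (h : ∀ ω, (∀ i, ω i ∈ S i) → E ω → G ω) :
    cnt S E ≤ cnt S G := by
  unfold cnt
  refine Nat.cast_le.2 (Finset.card_le_card fun ω hω => ?_)
  simp only [Finset.mem_filter] at hω ⊢
  exact ⟨hω.1, h ω (Fintype.mem_piFinset.1 hω.1) hω.2⟩

theorem cnt_true_pos {S : ι → Finset α} (hS : ∀ i, (S i).Nonempty) :
    0 < cnt S fun _ : ι → α => True := by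
  unfold cnt
  rw [Nat.cast_pos, Finset.card_pos]
  obtain ⟨ω, hω⟩ := Fintype.piFinset_nonempty.2 hS
  exact ⟨ω, by simp only [Finset.mem_filter]; exact ⟨hω, trivial⟩⟩

theorem cnt_split (S : ι → Finset α) (E G : (ι → α) → Prop) :
    cnt S G = cnt S (fun ω => E ω ∧ G ω) + cnt S (fun ω => ¬ E ω ∧ G ω) := by
  unfold cnt
  rw [← Nat.cast_add, ← Finset.card_union_of_disjoint]
  · congr 2
    ext ω
    simp only [Finset.mem_filter, Finset.mem_union]
    tauto
  · rw [Finset.disjoint_left]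
    intro ω h1 h2
    simp only [Finset.mem_filter] at h1 h2
    exact h2.2.1 h1.2.1

theorem cnt_indep (S : ι → Finset α) {V W : Finset ι} (hVW : Disjoint V W) {E G : (ι → α) → Prop}
    (hE : dep V E) (hG : dep W G) :
    cnt S (fun ω => E ω ∧ G ω) * cnt S (fun _ => True) = cnt S E * cnt S G := by
  classical
  unfold cnt
  rw [← Nat.cast_mul, ← Nat.cast_mul, ← Finset.card_product, ← Finset.card_product]
  congr 1
  let φ : (ι → α) × (ι → α) → (ι → α) × (ι → α) := fun p => (V.piecewise p.1 p.2, V.piecewise p.2 p.1)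
  have hφ : ∀ p, φ (φ p) = p := by
    rintro ⟨u, v⟩
    simp only [φ, Prod.mk.injEq]
    constructor
    · ext i
      by_cases hi : i ∈ V <;> simp [hi]
    · ext i
      by_cases hi : i ∈ V <;> simp [hi]
  have hmem : ∀ u v : ι → α, u ∈ Fintype.piFinset S → v ∈ Fintype.piFinset S →
      V.piecewise u v ∈ Fintype.piFinset S := by
    intro u v hu hv
    rw [Fintype.mem_piFinset] at hu hv ⊢
    intro i
    by_cases hi : i ∈ V
    · simpa [hi] using hu i
    · simpa [hi] using hv i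
  have hEV : ∀ u v : ι → α, E (V.piecewise u v) ↔ E u := fun u v =>
    hE _ _ fun i hi => by simp [hi]
  have hGV : ∀ u v : ι → α, G (V.piecewise u v) ↔ G v := fun u v =>
    hG _ _ fun i hi => by
      have h : i ∉ V := fun h => (Finset.disjoint_left.1 hVW) h hi
      simp [h]
  refine Finset.card_nbij' φ φ ?_ ?_ (fun p _ => hφ p) (fun p _ => hφ p)
  · rintro ⟨u, v⟩ hp
    simp only [Finset.coe_product, Set.mem_prod, Finset.mem_coe, Finset.mem_filter] at hp ⊢
    exact ⟨⟨hmem _ _ hp.1.1 hp.2.1, (hEV _ _).2 hp.1.2.1⟩, hmem _ _ hp.2.1 hp.1.1, (hGV _ _).2 hp.1.2.2⟩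
  · rintro ⟨u, v⟩ hp
    simp only [Finset.coe_product, Set.mem_prod, Finset.mem_coe, Finset.mem_filter] at hp ⊢
    exact ⟨⟨hmem _ _ hp.1.1 hp.2.1, (hEV _ _).2 hp.1.2, (hGV _ _).2 hp.2.2⟩, hmem _ _ hp.2.1 hp.1.1, trivial⟩

/-- general local lemma, conditional form -/
theorem lll_cond {S : ι → Finset α} (hS : ∀ i, (S i).Nonempty) (Ev : Finset κ) (E : κ → (ι → α) → Prop)
    (V : κ → Finset ι) (hdep : ∀ k ∈ Ev, dep (V k) (E k)) (p x : κ → ℝ)
    (hx0 : ∀ k ∈ Ev, 0 ≤ x k) (hx1 : ∀ k ∈ Ev, x k ≤ 1)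
    (hp : ∀ k ∈ Ev, cnt S (E k) ≤ p k * cnt S (fun _ => True))
    (hc : ∀ k ∈ Ev, ∀ T ⊆ Ev, (∀ l ∈ T, ¬ Disjoint (V l) (V k)) → p k ≤ x k * ∏ l ∈ T, (1 - x l)) :
    ∀ n : ℕ, ∀ T ⊆ Ev, T.card = n → ∀ k ∈ Ev, k ∉ T →
      cnt S (fun ω => E k ω ∧ ∀ l ∈ T, ¬ E l ω) ≤ x k * cnt S (fun ω => ∀ l ∈ T, ¬ E l ω) := by
  classical
  intro n
  induction n using Nat.strong_induction_on with
  | _ n ih =>
  intro T hT hn k hk hkT
  set T1 := T.filter fun l => ¬ Disjoint (V l) (V k) with hT1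
  set T2 := T.filter fun l => Disjoint (V l) (V k) with hT2
  have hT1s : T1 ⊆ T := Finset.filter_subset _ _
  have hT2s : T2 ⊆ T := Finset.filter_subset _ _
  have hU : ∀ l ∈ T, l ∈ T1 ∨ l ∈ T2 := by
    intro l hl
    by_cases h : Disjoint (V l) (V k)
    · exact Or.inr (Finset.mem_filter.2 ⟨hl, h⟩)
    · exact Or.inl (Finset.mem_filter.2 ⟨hl, h⟩)
  have hdisj : Disjoint T1 T2 := by
    rw [Finset.disjoint_left]
    intro l h1 h2
    exact (Finset.mem_filter.1 h1).2 (Finset.mem_filter.1 h2).2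
  have htop : 0 < cnt S fun _ : ι → α => True := cnt_true_pos hS
  -- the far events
  have h1 : cnt S (fun ω => E k ω ∧ ∀ l ∈ T, ¬ E l ω) ≤ cnt S (fun ω => E k ω ∧ ∀ l ∈ T2, ¬ E l ω) :=
    cnt_mono fun ω _ h => ⟨h.1, fun l hl => h.2 l (hT2s hl)⟩
  have h2 : cnt S (fun ω => E k ω ∧ ∀ l ∈ T2, ¬ E l ω) ≤ p k * cnt S (fun ω => ∀ l ∈ T2, ¬ E l ω) := by
    have hi := cnt_indep S (V := V k) (W := (V k)ᶜ) disjoint_compl_right (hdep k hk)
      (G := fun ω => ∀ l ∈ T2, ¬ E l ω) (dep_forall T2 fun l hl =>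
        dep_not (dep_mono (by
          have := (Finset.mem_filter.1 hl).2
          intro i hi
          rw [Finset.mem_compl]
          exact fun h => (Finset.disjoint_left.1 this) hi h) (hdep l (hT (hT2s hl)))))
    have h3 := mul_le_mul_of_nonneg_right (hp k hk) (cnt_nonneg S fun ω => ∀ l ∈ T2, ¬ E l ω)
    rw [← hi] at h3
    have h4 : p k * cnt S (fun _ : ι → α => True) * cnt S (fun ω => ∀ l ∈ T2, ¬ E l ω) =
        (p k * cnt S (fun ω => ∀ l ∈ T2, ¬ E l ω)) * cnt S (fun _ : ι → α => True) := by ring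
    rw [h4] at h3
    exact le_of_mul_le_mul_right h3 htop
  -- the near events
  have h5 : ∀ T' ⊆ T1, (∏ l ∈ T', (1 - x l)) * cnt S (fun ω => ∀ l ∈ T2, ¬ E l ω) ≤
      cnt S (fun ω => ∀ l ∈ T' ∪ T2, ¬ E l ω) := by
    intro T'
    induction T' using Finset.induction_on with
    | empty => intro _; simp
    | insert l T' hl ih' =>
      intro hs
      have hlT1 : l ∈ T1 := hs (Finset.mem_insert_self _ _)
      have hs' : T' ⊆ T1 := fun i hi => hs (Finset.mem_insert_of_mem hi)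
      have hlT : l ∉ T' ∪ T2 := by
        rw [Finset.mem_union, not_or]
        exact ⟨hl, fun h => (Finset.disjoint_left.1 hdisj) hlT1 h⟩
      have hsub : T' ∪ T2 ⊆ T := Finset.union_subset (hs'.trans hT1s) hT2s
      have hcard : (T' ∪ T2).card < n := by
        rw [← hn]
        refine Finset.card_lt_card ⟨hsub, fun h => hlT (h (hT1s hlT1))⟩
      have h6 := ih _ hcard (T' ∪ T2) (hsub.trans hT) rfl l (hT (hT1s hlT1)) hlT
      have h7 := cnt_split S (E l) (fun ω => ∀ l ∈ T' ∪ T2, ¬ E l ω)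
      have h8 : cnt S (fun ω => ¬ E l ω ∧ ∀ l ∈ T' ∪ T2, ¬ E l ω) ≤
          cnt S (fun ω => ∀ l' ∈ insert l T' ∪ T2, ¬ E l' ω) := by
        refine cnt_mono fun ω _ h l' hl' => ?_
        rw [Finset.insert_union, Finset.mem_insert] at hl'
        rcases hl' with rfl | hl'
        · exact h.1
        · exact h.2 l' hl'
      have h9 := ih' hs'
      have hxl : 0 ≤ 1 - x l := sub_nonneg.2 (hx1 l (hT (hT1s hlT1)))
      rw [Finset.prod_insert hl, mul_assoc]
      calc (1 - x l) * ((∏ l ∈ T', (1 - x l)) * cnt S (fun ω => ∀ l ∈ T2, ¬ E l ω))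
          ≤ (1 - x l) * cnt S (fun ω => ∀ l ∈ T' ∪ T2, ¬ E l ω) := mul_le_mul_of_nonneg_left h9 hxl
        _ ≤ _ := by linarith
  have h10 := h5 T1 subset_rfl
  have h11 : cnt S (fun ω => ∀ l ∈ T1 ∪ T2, ¬ E l ω) ≤ cnt S (fun ω => ∀ l ∈ T, ¬ E l ω) :=
    cnt_mono fun ω _ h l hl => h l (Finset.mem_union.2 (hU l hl))
  have h12 := hc k hk T1 (hT1s.trans hT) fun l hl => (Finset.mem_filter.1 hl).2
  calc _ ≤ _ := h1
    _ ≤ _ := h2
    _ ≤ (x k * ∏ l ∈ T1, (1 - x l)) * cnt S (fun ω => ∀ l ∈ T2, ¬ E l ω) :=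
      mul_le_mul_of_nonneg_right h12 (cnt_nonneg _ _)
    _ = x k * ((∏ l ∈ T1, (1 - x l)) * cnt S (fun ω => ∀ l ∈ T2, ¬ E l ω)) := by ring
    _ ≤ x k * cnt S (fun ω => ∀ l ∈ T, ¬ E l ω) :=
      mul_le_mul_of_nonneg_left (h10.trans h11) (hx0 k hk)

/-- general local lemma -/
theorem lll {S : ι → Finset α} (hS : ∀ i, (S i).Nonempty) (Ev : Finset κ) (E : κ → (ι → α) → Prop)
    (V : κ → Finset ι) (hdep : ∀ k ∈ Ev, dep (V k) (E k)) (p x : κ → ℝ)
    (hx0 : ∀ k ∈ Ev, 0 ≤ x k) (hx1 : ∀ k ∈ Ev, x k ≤ 1)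
    (hp : ∀ k ∈ Ev, cnt S (E k) ≤ p k * cnt S (fun _ => True))
    (hc : ∀ k ∈ Ev, ∀ T ⊆ Ev, (∀ l ∈ T, ¬ Disjoint (V l) (V k)) → p k ≤ x k * ∏ l ∈ T, (1 - x l)) :
    (∏ k ∈ Ev, (1 - x k)) * cnt S (fun _ => True) ≤ cnt S (fun ω => ∀ k ∈ Ev, ¬ E k ω) := by
  classical
  have key : ∀ T ⊆ Ev, (∏ k ∈ T, (1 - x k)) * cnt S (fun _ => True) ≤
      cnt S (fun ω => ∀ k ∈ T, ¬ E k ω) := by
    intro T
    induction T using Finset.induction_on with
    | empty => intro _; simp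
    | insert l T hl ih =>
      intro hs
      have hlE : l ∈ Ev := hs (Finset.mem_insert_self _ _)
      have hs' : T ⊆ Ev := fun i hi => hs (Finset.mem_insert_of_mem hi)
      have h6 := lll_cond hS Ev E V hdep p x hx0 hx1 hp hc _ T hs' rfl l hlE hl
      have h7 := cnt_split S (E l) (fun ω => ∀ l ∈ T, ¬ E l ω)
      have h8 : cnt S (fun ω => ¬ E l ω ∧ ∀ l ∈ T, ¬ E l ω) ≤
          cnt S (fun ω => ∀ l' ∈ insert l T, ¬ E l' ω) := by
        refine cnt_mono fun ω _ h l' hl' => ?_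
        rw [Finset.mem_insert] at hl'
        rcases hl' with rfl | hl'
        · exact h.1
        · exact h.2 l' hl'
      have h9 := ih hs'
      have hxl : 0 ≤ 1 - x l := sub_nonneg.2 (hx1 l hlE)
      rw [Finset.prod_insert hl, mul_assoc]
      calc (1 - x l) * ((∏ l ∈ T, (1 - x l)) * cnt S (fun _ => True))
          ≤ (1 - x l) * cnt S (fun ω => ∀ l ∈ T, ¬ E l ω) := mul_le_mul_of_nonneg_left h9 hxl
        _ ≤ _ := by linarith
  exact key Ev subset_rfl

theorem one_sub_ge_exp {x : ℝ} (h0 : 0 ≤ x) (h1 : x ≤ 1 / 2) : Real.exp (-(2 * x)) ≤ 1 - x := by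
  have h2 : 0 < 1 + 2 * x := by linarith
  have h3 : 1 + 2 * x ≤ Real.exp (2 * x) := by
    have := Real.add_one_le_exp (2 * x)
    linarith
  rw [Real.exp_neg]
  calc (Real.exp (2 * x))⁻¹ ≤ (1 + 2 * x)⁻¹ := inv_anti₀ h2 h3
    _ ≤ 1 - x := by
      rw [inv_le_iff_one_le_mul₀ h2]
      nlinarith

theorem prod_ge_exp (T : Finset κ) (x : κ → ℝ) (h0 : ∀ k ∈ T, 0 ≤ x k) (h1 : ∀ k ∈ T, x k ≤ 1 / 2) :
    Real.exp (-(2 * ∑ k ∈ T, x k)) ≤ ∏ k ∈ T, (1 - x k) := by
  have h : Real.exp (-(2 * ∑ k ∈ T, x k)) = ∏ k ∈ T, Real.exp (-(2 * x k)) := by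
    rw [← Real.exp_sum, Finset.mul_sum, ← Finset.sum_neg_distrib]
  rw [h]
  exact Finset.prod_le_prod (fun _ _ => (Real.exp_pos _).le) fun k hk => one_sub_ge_exp (h0 k hk) (h1 k hk)

/-- the local lemma in the form used in III.C -/
theorem lll_exp {S : ι → Finset α} (hS : ∀ i, (S i).Nonempty) (Ev : Finset κ) (E : κ → (ι → α) → Prop)
    (V : κ → Finset ι) (hV : ∀ k ∈ Ev, (V k).Nonempty) (hdep : ∀ k ∈ Ev, dep (V k) (E k)) (p : κ → ℝ)
    (hp0 : ∀ k ∈ Ev, 0 ≤ p k) (hp : ∀ k ∈ Ev, cnt S (E k) ≤ p k * cnt S (fun _ => True))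
    (hc : ∀ i, ∑ k ∈ Ev.filter (fun k => i ∈ V k), 4 ^ (V k).card * p k ≤ 1 / 4) :
    Real.exp (-(2 * ∑ k ∈ Ev, 4 ^ (V k).card * p k)) * cnt S (fun _ => True) ≤
      cnt S (fun ω => ∀ k ∈ Ev, ¬ E k ω) := by
  classical
  have hx0 : ∀ k ∈ Ev, 0 ≤ 4 ^ (V k).card * p k := fun k hk => mul_nonneg (by positivity) (hp0 k hk)
  have hx1 : ∀ k ∈ Ev, 4 ^ (V k).card * p k ≤ 1 / 4 := by
    intro k hk
    obtain ⟨i, hi⟩ := hV k hk
    refine le_trans ?_ (hc i)
    exact Finset.single_le_sum (f := fun k => 4 ^ (V k).card * p k)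
      (fun l hl => hx0 l (Finset.mem_filter.1 hl).1) (Finset.mem_filter.2 ⟨hk, hi⟩)
  have h1 := lll hS Ev E V hdep p (fun k => 4 ^ (V k).card * p k) hx0
    (fun k hk => (hx1 k hk).trans (by norm_num)) hp (by
      intro k hk T hT hTk
      have h2 : ∑ l ∈ T, 4 ^ (V l).card * p l ≤ (V k).card / 4 := by
        calc ∑ l ∈ T, 4 ^ (V l).card * p l
            ≤ ∑ l ∈ T, ∑ i ∈ V k, (if i ∈ V l then 4 ^ (V l).card * p l else 0) := by
              refine Finset.sum_le_sum fun l hl => ?_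
              obtain ⟨i, hi1, hi2⟩ := Finset.not_disjoint_iff.1 (hTk l hl)
              have h3 : (if i ∈ V l then 4 ^ (V l).card * p l else (0 : ℝ)) = 4 ^ (V l).card * p l := if_pos hi1
              refine h3.symm.le.trans ?_
              exact Finset.single_le_sum (f := fun i => if i ∈ V l then 4 ^ (V l).card * p l else (0 : ℝ))
                (fun i _ => by
                  split_ifs
                  · exact hx0 l (hT hl)
                  · exact le_rfl) hi2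
          _ = ∑ i ∈ V k, ∑ l ∈ T, (if i ∈ V l then 4 ^ (V l).card * p l else 0) := Finset.sum_comm
          _ ≤ ∑ i ∈ V k, (1 / 4 : ℝ) := by
              refine Finset.sum_le_sum fun i _ => ?_
              rw [← Finset.sum_filter]
              refine le_trans ?_ (hc i)
              refine Finset.sum_le_sum_of_subset_of_nonneg (Finset.filter_subset_filter _ hT) ?_
              intro l hl _
              exact hx0 l (Finset.mem_filter.1 hl).1
          _ = (V k).card / 4 := by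
              rw [Finset.sum_const, nsmul_eq_mul]
              ring
      have h4 := prod_ge_exp T (fun l => 4 ^ (V l).card * p l) (fun l hl => hx0 l (hT hl))
        fun l hl => (hx1 l (hT hl)).trans (by norm_num)
      have h5 : (1 : ℝ) ≤ 4 ^ (V k).card * Real.exp (-(2 * ∑ l ∈ T, 4 ^ (V l).card * p l)) := by
        have h6 : Real.exp (-((V k).card / 2 : ℝ)) ≤
            Real.exp (-(2 * ∑ l ∈ T, 4 ^ (V l).card * p l)) := by
          apply Real.exp_le_exp.2
          linarith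
        have h7 : (1 : ℝ) ≤ 4 ^ (V k).card * Real.exp (-((V k).card / 2 : ℝ)) := by
          have h8 : Real.exp (-((V k).card / 2 : ℝ)) = Real.exp (-(1 / 2)) ^ (V k).card := by
            rw [← Real.exp_nat_mul]
            congr 1
            ring
          rw [h8, ← mul_pow]
          refine one_le_pow₀ ?_
          have := Real.add_one_le_exp (-(1 / 2) : ℝ)
          linarith
        exact h7.trans (mul_le_mul_of_nonneg_left h6 (by positivity))
      calc p k = p k * 1 := (mul_one _).symm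
        _ ≤ p k * (4 ^ (V k).card * Real.exp (-(2 * ∑ l ∈ T, 4 ^ (V l).card * p l))) :=
          mul_le_mul_of_nonneg_left h5 (hp0 k hk)
        _ = (4 ^ (V k).card * p k) * Real.exp (-(2 * ∑ l ∈ T, 4 ^ (V l).card * p l)) := by ring
        _ ≤ (4 ^ (V k).card * p k) * ∏ l ∈ T, (1 - 4 ^ (V l).card * p l) :=
          mul_le_mul_of_nonneg_left h4 (hx0 k hk))
  refine le_trans (mul_le_mul_of_nonneg_right ?_ (cnt_nonneg _ _)) h1
  exact prod_ge_exp Ev (fun k => 4 ^ (V k).card * p k) hx0 fun k hk => (hx1 k hk).trans (by norm_num)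

end lll

end Pool.Agent.LC
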