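import Pool.Agent.Lib_MP_2c424f_lc1.F7

/-!
# Part I: typicality on the torus (main statements)
-/

set_option autoImplicit false

open Finset Filter

namespace Pool.Agent.LC

open Pool.Agent.LO Pool.Agent.LIN Pool.Agent.THR Pool.Agent.COR

/-- I.1 -/
theorem typ (K : ℕ) : ∃ C : ℕ, EvR fun d k q => Rar C d (k + 1) q fun f =>
    (4 : ℝ) ^ d * (2 ^ k) ^ d / (d : ℝ) ^ K < (nAt f : ℝ) :=
  typ' K

/-- I.2 -/
theorem allbad : ∃ C : ℕ, EvR fun d k q => ∀ c : Fin q, Rar C d (k + 1) q fun f =>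
    ∀ t : Blk d k, bdP et c (pat f t) :=
  allbad'

end Pool.Agent.LC
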