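import Pool.Agent.Lib_MP_2c424f_lc.PIII
import Pool.Agent.Lib_MP_2c424f_lc2.A10
import Pool.Agent.Lib_MP_2c424f_lc2.A12

/-!
# Part II: transfer to boxes and to cells of a graph (main statements)
-/

set_option autoImplicit false

open Finset Filter

namespace Pool.Agent.LC

open Pool.Agent.LO Pool.Agent.LIN Pool.Agent.THR Pool.Agent.COR

/-- II.1 -/
theorem box_rare (K : ℕ) : ∃ C d₀ : ℕ, ∀ d q : ℕ, d₀ ≤ d → Rg d q → ∀ s : ℕ, 1 ≤ s →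
    cG (bG d (2 ^ s)) (fun F : BxV d (2 ^ s) → Fin q => EvB K F) ≤
      cG (bG d (2 ^ s)) (fun _ : BxV d (2 ^ s) → Fin q => True) * (q : ℝ) ^ ((2 ^ s + 1) ^ d - (2 ^ s - 1) ^ d) *
        Real.exp (-((2 : ℝ) ^ s) ^ d / (d : ℝ) ^ C) :=
  box_rare' K

/-- II.3 -/
theorem cells_rare (K : ℕ) : ∃ C d₀ : ℕ, ∀ d q : ℕ, d₀ ≤ d → Rg d q → ∀ s : ℕ, (d : ℝ) ^ C ≤ 2 ^ s →
    ∀ (V ι : Type) [Fintype V] [DecidableEq V] (X : SimpleGraph V) (ev : V → Prop) (κ : ι → BxV d (2 ^ s) → V),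
      Par X ev → Cells d (2 ^ s) X ev κ → (∀ v, (nb X v).card ≤ 4 * d) → ∀ S : Finset ι,
      cG X (fun F : V → Fin q => ∀ j ∈ S, EvB K fun u => F (κ j u)) ≤
        cG X (fun _ : V → Fin q => True) * Real.exp (-(S.card * ((2 : ℝ) ^ s) ^ d / (d : ℝ) ^ C)) :=
  cells_rare' K

end Pool.Agent.LC
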