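import Pool.Agent.Lib_MP_2c424f_lc3.T29

/-!
# Part III: balance (main statement)
-/

set_option autoImplicit false

open Finset Filter

namespace Pool.Agent.LC

open Pool.Agent.LO Pool.Agent.LIN Pool.Agent.THR Pool.Agent.COR

/-- III -/
theorem allunb : ∃ C : ℕ, EvR fun d k q => Rar C d (k + 1) q fun f => ∀ t : Blk d k, UBP (pat f t) :=
  Pool.Agent.LC3.allunb'

end Pool.Agent.LC
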