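import Pool.Agent.Lib_MP_2c424f_lc4.F08

/-!
# Part IV: Kempe alignment on a graph (main statement)
-/

set_option autoImplicit false

open Finset Filter

namespace Pool.Agent.LC

open Pool.Agent.LO Pool.Agent.LIN Pool.Agent.THR Pool.Agent.COR

open scoped Classical in
/-- IV.4 -/
theorem alignG {d q : ℕ} (hd : 1 ≤ d) (hR : Rg d q) (V Bl : Type) [Fintype V] [DecidableEq V] [Fintype Bl]
    (X : SimpleGraph V) (ev : V → Prop) (hP : Par X ev) (β : Bl → Bt d → Bt d → V)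
    (hpar : ∀ t a b, ev (β t a b) ↔ ¬ od a b)
    (hfib : ∀ t v, ((univ.filter fun p : Bt d × Bt d => β t p.1 p.2 = v).card : ℝ) ≤ 2 ^ d)
    (U : Finset V) (hU : ∀ t a b, β t a b ∈ U) (A₀ : Finset (Fin q)) (hA : A₀.card = q / 2)
    (θ p : ℝ) (hθ : 0 < θ) (hθ1 : θ ≤ 1)
    (hp : cG X (fun F : V → Fin q =>
      θ * Fintype.card Bl ≤ ((univ.filter fun t : Bl => ¬ GDP (fun a b => F (β t a b))).card : ℝ)) ≤
        p * cG X (fun _ : V → Fin q => True))
    (hs : 4 * ((q : ℝ) ^ 2 / 4 + 1) * cK d q U.card * p / θ ≤ 1) :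
    1 / (2 * cK d q U.card) * cG X (fun _ : V → Fin q => True) ≤
      cG X (fun F : V → Fin q =>
        ((univ.filter fun t : Bl => ¬ (GDP (fun a b => F (β t a b)) ∧ ALP (fun a b => F (β t a b)) = A₀)).card : ℝ) ≤
          22 * ((q : ℝ) ^ 2 / 4 + 1) * θ * Fintype.card Bl) :=
  alignG4 hd hR V Bl X ev hP β hpar hfib U hU A₀ hA θ p hθ hθ1 hp hs

end Pool.Agent.LC
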