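import Pool.Agent.Lib_MP_2c424f_lc.Defs

/-!
# Part IV: constants of the alignment
-/

set_option autoImplicit false

open Finset Filter

namespace Pool.Agent.LC

open Pool.Agent.LO Pool.Agent.LIN Pool.Agent.THR Pool.Agent.COR

/-- number of sites of a big cluster in a block -/
noncomputable def sz (d q : ℕ) : ℝ := 2 ^ d / (2 * q)

/-- `2^{M |U| / s₀}` -/
noncomputable def cK (d q u : ℕ) : ℝ := (2 : ℝ) ^ ((q : ℝ) ^ 2 / 4 * u / sz d q)

end Pool.Agent.LC
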