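import Pool.Agent.Lib_MP_2c424f_lc5.V20

/-!
# Part V: the switching theorem (main statement)
-/

set_option autoImplicit false

open Finset Filter

namespace Pool.Agent.LC

open Pool.Agent.LO Pool.Agent.LIN Pool.Agent.THR Pool.Agent.COR

open scoped Classical in
/-- V -/
theorem switch (K : ℕ) : ∃ C d₀ : ℕ, ∀ d q : ℕ, d₀ ≤ d → Rg d q → ∀ s h : ℕ, (d : ℝ) ^ C ≤ 2 ^ s →
    (2 : ℝ) ^ s * (d : ℝ) ^ C ≤ h → (h : ℝ) ^ 2 ≤ 2 ^ d →
    ∀ (V Λ ι : Type) [Fintype V] [DecidableEq V] [Fintype Λ] [DecidableEq Λ] [Fintype ι]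
      (X X' : SimpleGraph V) (ev : V → Prop) (G : SimpleGraph Λ) (lv : Λ → ℕ) (i : Bool → Λ → V)
      (κ : ι → BxV d (2 ^ s) → Λ) (Y : ℝ),
      Par X ev → Par X' ev → (∀ v, (nb X v).card ≤ 4 * d) → (∀ v, (nb X' v).card ≤ 4 * d) →
      Layer h X X' ev G lv i → Cells d (2 ^ s) G (fun p => ev (i false p)) κ →
      (∀ j u, 1 ≤ lv (κ j u) ∧ lv (κ j u) + 2 ≤ h) →
      (∀ l, ((univ.filter fun p : Λ => lv p = l).card : ℝ) ≤ Y) →
      h * Y * (1 - 1 / (d : ℝ) ^ C) ≤ Fintype.card ι * ((2 : ℝ) ^ s + 1) ^ d →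
      cG X (fun _ : V → Fin q => True) ≤ Real.exp (Y / (d : ℝ) ^ K) * cG X' (fun _ : V → Fin q => True) :=
  switchA K

end Pool.Agent.LC
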