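import Pool.Agent.Lib_MP_2c424f_lc.LLL

/-!
# Conflict paths (abstract; used in Parts III and V)

Sites `Λ` (even: `ev`), values `ω x ∈ S x` at the even sites `x`, the odd sites are frozen.
`cf x y a`: the even site `x` with the value `a` is in conflict with the (odd, admissible) neighbour `y`.
Paths are lists of sites.  `P1 x y`, `P2 x y y'` bound the probability that `x` is in conflict with `y`, with both
`y` and `y' ≠ y`.  `wt c none l`: the product of `c` times these factors over the even sites of `l`.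
-/

set_option autoImplicit false
set_option linter.unusedSectionVars false

open Finset

namespace Pool.Agent.LC

/-! ## Lists of sites -/

section lists
variable {Λ : Type*} [Fintype Λ] [DecidableEq Λ]

/-- lists of length `n` -/
def LL (Λ : Type*) [Fintype Λ] [DecidableEq Λ] : ℕ → Finset (List Λ)
  | 0 => {[]}
  | n + 1 => (univ ×ˢ LL Λ n).image fun p => p.1 :: p.2

/-- lists of length at most `n` -/
def LT (Λ : Type*) [Fintype Λ] [DecidableEq Λ] : ℕ → Finset (List Λ)
  | 0 => {[]}
  | n + 1 => insert [] ((univ ×ˢ LT Λ n).image fun p => p.1 :: p.2)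

theorem mem_LL (n : ℕ) (l : List Λ) : l ∈ LL Λ n ↔ l.length = n := by
  induction n generalizing l with
  | zero => simp [LL]
  | succ n ih =>
    cases l with
    | nil => simp [LL]
    | cons s l => simp [LL, ih]

theorem mem_LT (n : ℕ) (l : List Λ) : l ∈ LT Λ n ↔ l.length ≤ n := by
  induction n generalizing l with
  | zero => simp [LT]
  | succ n ih =>
    cases l with
    | nil => simp [LT]
    | cons s l => simp [LT, ih]

theorem cons_inj2 (A : Finset (Λ × List Λ)) :
    Set.InjOn (fun p : Λ × List Λ => p.1 :: p.2) A := by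
  rintro ⟨a, l⟩ _ ⟨b, m⟩ _ h
  simpa using h

theorem sum_LL_succ (n : ℕ) (f : List Λ → ℝ) :
    ∑ l ∈ LL Λ (n + 1), f l = ∑ s, ∑ l ∈ LL Λ n, f (s :: l) := by
  rw [LL, Finset.sum_image (cons_inj2 _), Finset.sum_product]

theorem sum_LT_succ (n : ℕ) (f : List Λ → ℝ) :
    ∑ l ∈ LT Λ (n + 1), f l = f [] + ∑ s, ∑ l ∈ LT Λ n, f (s :: l) := by
  rw [LT, Finset.sum_insert, Finset.sum_image (cons_inj2 _), Finset.sum_product]
  simp

end lists

/-! ## Weights -/

section weights
variable {Λ : Type*} [Fintype Λ] [DecidableEq Λ]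

/-- factor of an even site with the neighbours `a`, `b` in the path -/
def fac (P1 : Λ → Λ → ℝ) (P2 : Λ → Λ → Λ → ℝ) (s : Λ) : Option Λ → Option Λ → ℝ
  | none, none => 1
  | some y, none => P1 s y
  | none, some y => P1 s y
  | some y, some y' => P2 s y y'

open scoped Classical in
/-- factor of a site with the neighbours `a`, `b` in the path -/
noncomputable def FF (ev : Λ → Prop) (c : ℝ) (P1 : Λ → Λ → ℝ) (P2 : Λ → Λ → Λ → ℝ) (s : Λ) (a b : Option Λ) : ℝ :=
  if ev s then c * fac P1 P2 s a b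
  else if (∃ y ∈ a, ¬ ev y) ∨ (∃ y ∈ b, ¬ ev y) then 0 else 1

/-- weight of a path, given the site before it -/
noncomputable def wt (ev : Λ → Prop) (c : ℝ) (P1 : Λ → Λ → ℝ) (P2 : Λ → Λ → Λ → ℝ) : Option Λ → List Λ → ℝ
  | _, [] => 1
  | a, s :: l => FF ev c P1 P2 s a l.head? * wt ev c P1 P2 (some s) l

/-- the kernel bounds: rows `≤ ρ`, `P1` rows `≤ b` at the odd sites, `≤ ρ'` at the even sites -/
structure Ker (ev : Λ → Prop) (P1 : Λ → Λ → ℝ) (P2 : Λ → Λ → Λ → ℝ) (ρ b ρ' : ℝ) : Prop where
  n1 : ∀ x y, 0 ≤ P1 x y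
  n2 : ∀ x y y', 0 ≤ P2 x y y'
  z1 : ∀ x y, ev y → P1 x y = 0
  z2 : ∀ x y y', ev y ∨ ev y' → P2 x y y' = 0
  sy : ∀ x y y', P2 x y y' = P2 x y' y
  r0 : 0 ≤ ρ
  b0 : 0 ≤ b
  r0' : 0 ≤ ρ'
  o2 : ∀ y, ¬ ev y → ∑ x, ∑ y', P2 x y y' ≤ ρ
  o1 : ∀ y, ¬ ev y → ∑ x, P1 x y ≤ b
  e1 : ∀ x, ev x → ∑ y, P1 x y ≤ ρ'
  e2 : ∀ x, ev x → ∑ y, ∑ y', P2 x y y' ≤ ρ'

variable {ev : Λ → Prop} {c : ℝ} {P1 : Λ → Λ → ℝ} {P2 : Λ → Λ → Λ → ℝ} {ρ b ρ' : ℝ}

theorem fac_nonneg (h : Ker ev P1 P2 ρ b ρ') (s : Λ) (x y : Option Λ) : 0 ≤ fac P1 P2 s x y := by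
  cases x <;> cases y <;> simp [fac, h.n1, h.n2]

theorem FF_nonneg (hc : 0 ≤ c) (h : Ker ev P1 P2 ρ b ρ') (s : Λ) (x y : Option Λ) :
    0 ≤ FF ev c P1 P2 s x y := by
  unfold FF
  split_ifs
  · exact mul_nonneg hc (fac_nonneg h s x y)
  · exact le_rfl
  · exact zero_le_one

theorem FF_symm (h : Ker ev P1 P2 ρ b ρ') (s : Λ) (x y : Option Λ) :
    FF ev c P1 P2 s x y = FF ev c P1 P2 s y x := by
  unfold FF
  have h1 : fac P1 P2 s x y = fac P1 P2 s y x := by
    cases x <;> cases y <;> simp [fac, h.sy s]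
  rw [h1]
  by_cases hs : ev s
  · rw [if_pos hs, if_pos hs]
  · rw [if_neg hs, if_neg hs]
    by_cases h2 : (∃ z ∈ x, ¬ ev z) ∨ (∃ z ∈ y, ¬ ev z)
    · rw [if_pos h2, if_pos h2.symm]
    · rw [if_neg h2, if_neg fun h3 => h2 h3.symm]

theorem FF_odd_le {s : Λ} (hs : ¬ ev s) (x y : Option Λ) : FF ev c P1 P2 s x y ≤ 1 := by
  unfold FF
  rw [if_neg hs]
  split_ifs <;> norm_num

theorem FF_odd_zero {s y : Λ} (hs : ¬ ev s) (hy : ¬ ev y) (x : Option Λ) :
    FF ev c P1 P2 s (some y) x = 0 := by
  unfold FF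
  rw [if_neg hs, if_pos (Or.inl ⟨y, rfl, hy⟩)]

theorem FF_even {s : Λ} (hs : ev s) (x y : Option Λ) : FF ev c P1 P2 s x y = c * fac P1 P2 s x y := by
  unfold FF
  rw [if_pos hs]

theorem wt_nonneg (hc : 0 ≤ c) (h : Ker ev P1 P2 ρ b ρ') (x : Option Λ) (l : List Λ) :
    0 ≤ wt ev c P1 P2 x l := by
  induction l generalizing x with
  | nil => exact zero_le_one
  | cons s l ih => exact mul_nonneg (FF_nonneg hc h _ _ _) (ih _)

theorem wt_rev (h : Ker ev P1 P2 ρ b ρ') (l m : List Λ) :
    wt ev c P1 P2 none (l.reverse ++ m) = wt ev c P1 P2 m.head? l * wt ev c P1 P2 l.head? m := by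
  induction l generalizing m with
  | nil => simp [wt]
  | cons s l ih =>
    rw [List.reverse_cons, List.append_assoc, List.singleton_append, ih]
    simp only [wt, List.head?_cons]
    rw [FF_symm h s l.head? m.head?]
    ring

/-- the weight of a path is that of the reversed path -/
theorem wt_reverse (h : Ker ev P1 P2 ρ b ρ') (l : List Λ) :
    wt ev c P1 P2 none l.reverse = wt ev c P1 P2 none l := by
  have := wt_rev (c := c) h l []
  simpa [wt] using this

theorem wt_mid (h : Ker ev P1 P2 ρ b ρ') (x : Λ) (l m : List Λ) :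
    wt ev c P1 P2 none (l.reverse ++ x :: m) =
      wt ev c P1 P2 (some x) l * FF ev c P1 P2 x l.head? m.head? * wt ev c P1 P2 (some x) m := by
  rw [wt_rev h]
  simp only [wt, List.head?_cons]
  ring

/-- weights with the constant `c` -/
theorem wt_const (x : Option Λ) (l : List Λ) [DecidablePred ev] :
    wt ev c P1 P2 x l = c ^ (l.filter fun s => ev s).length * wt ev 1 P1 P2 x l := by
  induction l generalizing x with
  | nil => simp [wt]
  | cons s l ih =>
    rw [wt, wt, ih]
    by_cases hs : ev s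
    · rw [FF_even hs, FF_even hs, List.filter_cons_of_pos (by simpa using hs), List.length_cons, pow_succ]
      ring
    · have h1 : FF ev c P1 P2 s x l.head? = FF ev 1 P1 P2 s x l.head? := by
        unfold FF
        rw [if_neg hs, if_neg hs]
      rw [h1, List.filter_cons_of_neg (by simpa using hs)]
      ring

/-! ## Path sums of fixed length -/

theorem sum_two_step (hc : 0 ≤ c) (h : Ker ev P1 P2 ρ b ρ') {y : Λ} (hy : ¬ ev y) (T : Finset (List Λ)) {B : ℝ}
    (hB : ∀ t, ¬ ev t → ∑ l ∈ T, wt ev c P1 P2 (some t) l ≤ B) (hB0 : 0 ≤ B) :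
    ∑ s, ∑ t, ∑ l ∈ T, wt ev c P1 P2 (some y) (s :: t :: l) ≤ c * ρ * B := by
  have h1 : ∀ s t, ∑ l ∈ T, wt ev c P1 P2 (some y) (s :: t :: l) ≤ c * P2 s y t * B := by
    intro s t
    by_cases hs : ev s
    · by_cases ht : ev t
      · have h2 : ∀ l ∈ T, wt ev c P1 P2 (some y) (s :: t :: l) = 0 := by
          intro l _
          simp [wt, FF_even hs, fac, h.z2 s y t (Or.inr ht)]
        rw [Finset.sum_eq_zero h2, h.z2 s y t (Or.inr ht)]
        simp
      · have h2 : ∀ l ∈ T, wt ev c P1 P2 (some y) (s :: t :: l) ≤ c * P2 s y t * wt ev c P1 P2 (some t) l := by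
          intro l _
          simp only [wt, List.head?_cons, FF_even hs, fac]
          have h3 := FF_odd_le (c := c) (P1 := P1) (P2 := P2) ht (some s) l.head?
          have h4 := wt_nonneg hc h (some t) l
          have h5 : 0 ≤ c * P2 s y t := mul_nonneg hc (h.n2 _ _ _)
          refine mul_le_mul_of_nonneg_left ?_ h5
          calc _ ≤ 1 * wt ev c P1 P2 (some t) l := mul_le_mul_of_nonneg_right h3 h4
            _ = _ := one_mul _
        refine (Finset.sum_le_sum h2).trans ?_
        rw [← Finset.mul_sum]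
        exact mul_le_mul_of_nonneg_left (hB t ht) (mul_nonneg hc (h.n2 _ _ _))
    · have h2 : ∀ l ∈ T, wt ev c P1 P2 (some y) (s :: t :: l) = 0 := by
        intro l _
        rw [wt, FF_odd_zero hs hy, zero_mul]
      rw [Finset.sum_eq_zero h2]
      exact mul_nonneg (mul_nonneg hc (h.n2 _ _ _)) hB0
  calc ∑ s, ∑ t, ∑ l ∈ T, wt ev c P1 P2 (some y) (s :: t :: l)
      ≤ ∑ s, ∑ t, c * P2 s y t * B := Finset.sum_le_sum fun s _ => Finset.sum_le_sum fun t _ => h1 s t
    _ = c * (∑ s, ∑ t, P2 s y t) * B := by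
      rw [Finset.mul_sum, Finset.sum_mul]
      refine Finset.sum_congr rfl fun s _ => ?_
      rw [Finset.mul_sum, Finset.sum_mul]
    _ ≤ c * ρ * B := mul_le_mul_of_nonneg_right (mul_le_mul_of_nonneg_left (h.o2 y hy) hc) hB0

theorem sum_one_step (hc : 0 ≤ c) (h : Ker ev P1 P2 ρ b ρ') {y : Λ} (hy : ¬ ev y) :
    ∑ s, wt ev c P1 P2 (some y) [s] ≤ c * b := by
  have h1 : ∀ s, wt ev c P1 P2 (some y) [s] ≤ c * P1 s y := by
    intro s
    by_cases hs : ev s
    · simp [wt, FF_even hs, fac]
    · rw [wt, FF_odd_zero hs hy, zero_mul]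
      exact mul_nonneg hc (h.n1 _ _)
  calc ∑ s, wt ev c P1 P2 (some y) [s] ≤ ∑ s, c * P1 s y := Finset.sum_le_sum fun s _ => h1 s
    _ = c * ∑ s, P1 s y := by rw [Finset.mul_sum]
    _ ≤ c * b := mul_le_mul_of_nonneg_left (h.o1 y hy) hc

/-- from an odd site, an even number of steps -/
theorem sum_even_steps (hc : 0 ≤ c) (h : Ker ev P1 P2 ρ b ρ') (k : ℕ) {y : Λ} (hy : ¬ ev y) :
    ∑ l ∈ LL Λ (2 * k), wt ev c P1 P2 (some y) l ≤ (c * ρ) ^ k := by
  induction k generalizing y with
  | zero => simp [LL, wt]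
  | succ k ih =>
    rw [show 2 * (k + 1) = 2 * k + 1 + 1 from rfl, sum_LL_succ]
    simp_rw [sum_LL_succ]
    refine (sum_two_step hc h hy _ (fun t ht => ih ht) (pow_nonneg (mul_nonneg hc h.r0) _)).trans ?_
    rw [pow_succ]
    exact le_of_eq (by ring)

/-- from an odd site, an odd number of steps -/
theorem sum_odd_steps (hc : 0 ≤ c) (h : Ker ev P1 P2 ρ b ρ') (k : ℕ) {y : Λ} (hy : ¬ ev y) :
    ∑ l ∈ LL Λ (2 * k + 1), wt ev c P1 P2 (some y) l ≤ (c * ρ) ^ k * (c * b) := by
  induction k generalizing y with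
  | zero =>
    rw [sum_LL_succ]
    simpa [LL] using sum_one_step hc h hy
  | succ k ih =>
    rw [show 2 * (k + 1) + 1 = (2 * k + 1) + 1 + 1 from rfl, sum_LL_succ]
    simp_rw [sum_LL_succ _ (fun l => wt ev c P1 P2 (some y) (_ :: l))]
    refine (sum_two_step hc h hy _ (fun t ht => ih ht)
      (mul_nonneg (pow_nonneg (mul_nonneg hc h.r0) _) (mul_nonneg hc h.b0))).trans ?_
    rw [pow_succ]
    exact le_of_eq (by ring)

/-- from an even site -/
theorem sum_from_even (hc : 0 ≤ c) (h : Ker ev P1 P2 ρ b ρ') {x : Λ} (hx : ev x) (T : Finset (List Λ)) {B : ℝ}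
    (hB : ∀ t, ¬ ev t → ∑ l ∈ T, wt ev c P1 P2 (some t) l ≤ B) (hB0 : 0 ≤ B) :
    ∑ t, ∑ l ∈ T, wt ev c P1 P2 none (x :: t :: l) ≤ c * ρ' * B := by
  have h1 : ∀ t, ∑ l ∈ T, wt ev c P1 P2 none (x :: t :: l) ≤ c * P1 x t * B := by
    intro t
    by_cases ht : ev t
    · have h2 : ∀ l ∈ T, wt ev c P1 P2 none (x :: t :: l) = 0 := by
        intro l _
        simp [wt, FF_even hx, fac, h.z1 x t ht]
      rw [Finset.sum_eq_zero h2, h.z1 x t ht]
      simp
    · have h2 : ∀ l ∈ T, wt ev c P1 P2 none (x :: t :: l) ≤ c * P1 x t * wt ev c P1 P2 (some t) l := by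
        intro l _
        simp only [wt, List.head?_cons, FF_even hx, fac]
        have h3 := FF_odd_le (c := c) (P1 := P1) (P2 := P2) ht (some x) l.head?
        have h4 := wt_nonneg hc h (some t) l
        have h5 : 0 ≤ c * P1 x t := mul_nonneg hc (h.n1 _ _)
        refine mul_le_mul_of_nonneg_left ?_ h5
        calc _ ≤ 1 * wt ev c P1 P2 (some t) l := mul_le_mul_of_nonneg_right h3 h4
          _ = _ := one_mul _
      refine (Finset.sum_le_sum h2).trans ?_
      rw [← Finset.mul_sum]
      exact mul_le_mul_of_nonneg_left (hB t ht) (mul_nonneg hc (h.n1 _ _))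
  calc ∑ t, ∑ l ∈ T, wt ev c P1 P2 none (x :: t :: l)
      ≤ ∑ t, c * P1 x t * B := Finset.sum_le_sum fun t _ => h1 t
    _ = c * (∑ t, P1 x t) * B := by
      rw [Finset.mul_sum, Finset.sum_mul]
    _ ≤ c * ρ' * B := mul_le_mul_of_nonneg_right (mul_le_mul_of_nonneg_left (h.e1 x hx) hc) hB0

/-- all paths with `n + 1` steps -/
theorem sum_all (hc : 0 ≤ c) (h : Ker ev P1 P2 ρ b ρ') (n : ℕ) :
    ∑ l ∈ LL Λ (n + 2), wt ev c P1 P2 none l ≤
      Fintype.card Λ * ((2 * (c * ρ') + c * ρ + c * ρ' * (c * b)) * (c * ρ) ^ (n / 2)) := by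
  classical
  have hcρ : 0 ≤ c * ρ := mul_nonneg hc h.r0
  have hcρ' : 0 ≤ c * ρ' := mul_nonneg hc h.r0'
  have hcb : 0 ≤ c * b := mul_nonneg hc h.b0
  have hK : 0 ≤ c * ρ' * (c * b) := mul_nonneg hcρ' hcb
  -- split according to the parity of the first site
  have hodd : ∀ y, ¬ ev y → ∀ l : List Λ, wt ev c P1 P2 none (y :: l) ≤ wt ev c P1 P2 (some y) l := by
    intro y hy l
    rw [wt]
    calc _ ≤ 1 * wt ev c P1 P2 (some y) l :=
          mul_le_mul_of_nonneg_right (FF_odd_le hy _ _) (wt_nonneg hc h _ _)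
      _ = _ := one_mul _
  rcases Nat.even_or_odd' n with ⟨k, hk | hk⟩
  · -- `n + 1 = 2 k + 1` steps
    have hE : ∀ x, ev x → ∑ t, ∑ l ∈ LL Λ (2 * k), wt ev c P1 P2 none (x :: t :: l) ≤ c * ρ' * (c * ρ) ^ k :=
      fun x hx => sum_from_even hc h hx _ (fun t ht => sum_even_steps hc h k ht) (pow_nonneg hcρ k)
    have hdiv : n / 2 = k := by omega
    -- a path is in one of two classes: even first site, or even last site
    have h1 : ∑ l ∈ LL Λ (n + 2), wt ev c P1 P2 none l ≤
        2 * ∑ x, ∑ t, ∑ l ∈ LL Λ (2 * k), (if ev x then wt ev c P1 P2 none (x :: t :: l) else 0) := by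
      have h2 : ∀ l ∈ LL Λ (n + 2), wt ev c P1 P2 none l ≤
          (if ∃ x ∈ l.head?, ev x then wt ev c P1 P2 none l else 0) +
          (if ∃ x ∈ l.reverse.head?, ev x then wt ev c P1 P2 none l.reverse else 0) := by
        intro l hl
        rw [wt_reverse h]
        have hw := wt_nonneg hc h none l
        by_cases ha : ∃ x ∈ l.head?, ev x
        · rw [if_pos ha]
          split_ifs <;> linarith
        · by_cases hb : ∃ x ∈ l.reverse.head?, ev x
          · rw [if_neg ha, if_pos hb]
            linarith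
          · rw [if_neg ha, if_neg hb]
            -- odd first and last sites and an odd number of steps: the weight is zero
            have key : ∀ (j : ℕ) (y : Λ) (m : List Λ), ¬ ev y → m.length = 2 * j + 1 →
                (∀ x ∈ (y :: m).getLast?, ¬ ev x) → wt ev c P1 P2 (some y) m = 0 := by
              intro j
              induction j with
              | zero =>
                intro y m hy hm hlast
                obtain ⟨s, rfl⟩ := List.length_eq_one_iff.1 hm
                have hs : ¬ ev s := hlast s (by simp)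
                rw [wt, FF_odd_zero hs hy, zero_mul]
              | succ j ih =>
                intro y m hy hm hlast
                rcases m with _ | ⟨s, m⟩
                · simp at hm
                rcases m with _ | ⟨t, m⟩
                · simp at hm
                by_cases hs : ev s
                · by_cases ht : ev t
                  · simp [wt, FF_even hs, fac, h.z2 s y t (Or.inr ht)]
                  · have h3 := ih t m ht (by simp at hm; omega) (by
                      intro x hx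
                      refine hlast x ?_
                      rw [List.getLast?_cons_cons, List.getLast?_cons_cons]
                      exact hx)
                    rw [wt, wt, h3, mul_zero, mul_zero]
                · rw [wt, FF_odd_zero hs hy, zero_mul]
            rcases l with _ | ⟨y, m⟩
            · rw [mem_LL] at hl
              simp at hl
            · have hy : ¬ ev y := fun h4 => ha ⟨y, by simp, h4⟩
              rw [mem_LL] at hl
              have h5 := key k y m hy (by simp at hl; omega) (by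
                intro x hx h4
                refine hb ⟨x, ?_, h4⟩
                rw [List.head?_reverse]
                exact hx)
              rw [wt, h5, mul_zero, add_zero]
      refine (Finset.sum_le_sum h2).trans ?_
      rw [Finset.sum_add_distrib]
      have h3 : ∑ l ∈ LL Λ (n + 2), (if ∃ x ∈ l.reverse.head?, ev x then wt ev c P1 P2 none l.reverse else 0) =
          ∑ l ∈ LL Λ (n + 2), (if ∃ x ∈ l.head?, ev x then wt ev c P1 P2 none l else 0) := by
        refine Finset.sum_nbij' List.reverse List.reverse ?_ ?_ ?_ ?_ ?_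
        · intro l hl
          rw [mem_LL] at hl ⊢
          simpa using hl
        · intro l hl
          rw [mem_LL] at hl ⊢
          simpa using hl
        · intro l _
          exact List.reverse_reverse l
        · intro l _
          exact List.reverse_reverse l
        · intro l _
          rfl
      rw [h3, ← two_mul]
      refine le_of_eq ?_
      congr 1
      rw [show n + 2 = 2 * k + 1 + 1 by omega, sum_LL_succ]
      refine Finset.sum_congr rfl fun x _ => ?_
      rw [sum_LL_succ]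
      refine Finset.sum_congr rfl fun t _ => Finset.sum_congr rfl fun l _ => ?_
      simp
    have h6 : ∑ x, ∑ t, ∑ l ∈ LL Λ (2 * k), (if ev x then wt ev c P1 P2 none (x :: t :: l) else 0) ≤
        ∑ _x : Λ, c * ρ' * (c * ρ) ^ k := by
      refine Finset.sum_le_sum fun x _ => ?_
      by_cases hx : ev x
      · simp only [if_pos hx]
        exact hE x hx
      · simp only [if_neg hx, Finset.sum_const_zero]
        exact mul_nonneg hcρ' (pow_nonneg hcρ k)
    rw [Finset.sum_const, Finset.card_univ, nsmul_eq_mul] at h6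
    rw [hdiv]
    have hp : 0 ≤ (c * ρ) ^ k := pow_nonneg hcρ k
    have hN : (0 : ℝ) ≤ Fintype.card Λ := Nat.cast_nonneg _
    calc _ ≤ _ := h1
      _ ≤ 2 * (Fintype.card Λ * (c * ρ' * (c * ρ) ^ k)) := by linarith
      _ = Fintype.card Λ * ((2 * (c * ρ')) * (c * ρ) ^ k) := by ring
      _ ≤ _ := by
        refine mul_le_mul_of_nonneg_left (mul_le_mul_of_nonneg_right ?_ hp) hN
        linarith
  · -- `n + 1 = 2 k + 2` steps
    have hdiv : n / 2 = k := by omega
    have hE : ∀ x, ev x → ∑ t, ∑ l ∈ LL Λ (2 * k + 1), wt ev c P1 P2 none (x :: t :: l) ≤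
        c * ρ' * ((c * ρ) ^ k * (c * b)) :=
      fun x hx => sum_from_even hc h hx _ (fun t ht => sum_odd_steps hc h k ht)
        (mul_nonneg (pow_nonneg hcρ k) hcb)
    have hO : ∀ y, ¬ ev y → ∑ l ∈ LL Λ (2 * k + 2), wt ev c P1 P2 none (y :: l) ≤ (c * ρ) ^ (k + 1) := by
      intro y hy
      refine (Finset.sum_le_sum fun l _ => hodd y hy l).trans ?_
      have := sum_even_steps hc h (k + 1) hy
      rwa [show 2 * (k + 1) = 2 * k + 2 from rfl] at this
    have hp : 0 ≤ (c * ρ) ^ k := pow_nonneg hcρ k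
    have h1 : ∀ x, ∑ l ∈ LL Λ (2 * k + 2), wt ev c P1 P2 none (x :: l) ≤
        (2 * (c * ρ') + c * ρ + c * ρ' * (c * b)) * (c * ρ) ^ k := by
      intro x
      by_cases hx : ev x
      · rw [show 2 * k + 2 = 2 * k + 1 + 1 from rfl, sum_LL_succ]
        refine (hE x hx).trans ?_
        have : c * ρ' * ((c * ρ) ^ k * (c * b)) = (c * ρ' * (c * b)) * (c * ρ) ^ k := by ring
        rw [this]
        refine mul_le_mul_of_nonneg_right ?_ hp
        linarith
      · refine (hO x hx).trans ?_
        rw [pow_succ, mul_comm]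
        refine mul_le_mul_of_nonneg_right ?_ hp
        linarith
    rw [show n + 2 = 2 * k + 2 + 1 by omega, sum_LL_succ]
    refine (Finset.sum_le_sum fun x _ => h1 x).trans ?_
    rw [Finset.sum_const, Finset.card_univ, nsmul_eq_mul, hdiv]

/-! ## Path sums of bounded length -/

/-- from an odd site, at most `n` steps -/
theorem sum_LT_le (hc : 0 ≤ c) (h : Ker ev P1 P2 ρ b ρ') (hρ : c * ρ ≤ 1 / 2) (n : ℕ) {y : Λ} (hy : ¬ ev y) :
    ∑ l ∈ LT Λ n, wt ev c P1 P2 (some y) l ≤ 2 * (1 + c * b) := by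
  have hcb : 0 ≤ c * b := mul_nonneg hc h.b0
  induction n using Nat.strong_induction_on generalizing y with
  | _ n ih =>
  rcases n with _ | _ | n
  · simp only [LT, Finset.sum_singleton, wt]
    linarith
  · rw [sum_LT_succ]
    simp only [LT, Finset.sum_singleton]
    have := sum_one_step hc h hy
    simp only [wt] at this ⊢
    linarith
  · rw [sum_LT_succ]
    simp_rw [sum_LT_succ n (fun l => wt ev c P1 P2 (some y) (_ :: l))]
    rw [Finset.sum_add_distrib]
    have h1 := sum_one_step hc h hy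
    have h2 := sum_two_step hc h hy (LT Λ n) (B := 2 * (1 + c * b))
      (fun t ht => ih n (by omega) ht) (by linarith)
    have h3 : c * ρ * (2 * (1 + c * b)) ≤ 1 / 2 * (2 * (1 + c * b)) :=
      mul_le_mul_of_nonneg_right hρ (by linarith)
    have h4 : wt ev c P1 P2 (some y) [] = 1 := rfl
    rw [h4]
    linarith

/-- continuation on one side of the even site `x` -/
theorem sum_side (hc : 0 ≤ c) (h : Ker ev P1 P2 ρ b ρ') (hρ : c * ρ ≤ 1 / 2) (n : ℕ) {x : Λ} {t : Λ}
    (ht : ¬ ev t) : ∑ l ∈ LT Λ n, wt ev c P1 P2 (some x) (t :: l) ≤ 2 * (1 + c * b) := by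
  refine (Finset.sum_le_sum fun l _ => ?_).trans (sum_LT_le hc h hρ n ht)
  rw [wt]
  calc _ ≤ 1 * wt ev c P1 P2 (some t) l :=
        mul_le_mul_of_nonneg_right (FF_odd_le ht _ _) (wt_nonneg hc h _ _)
    _ = _ := one_mul _

/-- all paths with at least one step through the even site `x` -/
theorem sum_mid (hc : 0 ≤ c) (h : Ker ev P1 P2 ρ b ρ') (hρ : c * ρ ≤ 1 / 2) (n : ℕ) {x : Λ} (hx : ev x) :
    ∑ l ∈ LT Λ n, ∑ m ∈ LT Λ n, (if l = [] ∧ m = [] then 0 else wt ev c P1 P2 none (l.reverse ++ x :: m)) ≤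
      2 * (c * ρ' * (2 * (1 + c * b))) + c * ρ' * (2 * (1 + c * b)) ^ 2 := by
  have hcb : 0 ≤ c * b := mul_nonneg hc h.b0
  set R := 2 * (1 + c * b) with hR
  have hR0 : 0 ≤ R := by linarith
  have hcρ' : 0 ≤ c * ρ' := mul_nonneg hc h.r0'
  have hmid : ∀ l m, wt ev c P1 P2 none (l.reverse ++ x :: m) =
      wt ev c P1 P2 (some x) l * (c * fac P1 P2 x l.head? m.head?) * wt ev c P1 P2 (some x) m := by
    intro l m
    rw [wt_mid h, FF_even hx]
  have hside : ∀ (g : Λ → ℝ), (∀ t, 0 ≤ g t) → (∀ t, ev t → g t = 0) → ∀ n,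
      ∑ t, ∑ l ∈ LT Λ n, g t * wt ev c P1 P2 (some x) (t :: l) ≤ (∑ t, g t) * R := by
    intro g hg hg0 n
    rw [Finset.sum_mul]
    refine Finset.sum_le_sum fun t _ => ?_
    rw [← Finset.mul_sum]
    by_cases ht : ev t
    · rw [hg0 t ht, zero_mul, zero_mul]
    · exact mul_le_mul_of_nonneg_left (sum_side hc h hρ n ht) (hg t)
  have hone : ∀ n, ∑ t, ∑ m ∈ LT Λ n, c * P1 x t * wt ev c P1 P2 (some x) (t :: m) ≤ c * ρ' * R := by
    intro n
    refine (hside (fun t => c * P1 x t) (fun t => mul_nonneg hc (h.n1 _ _))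
      (fun t ht => by simp [h.z1 x t ht]) n).trans ?_
    rw [← Finset.mul_sum]
    exact mul_le_mul_of_nonneg_right (mul_le_mul_of_nonneg_left (h.e1 x hx) hc) hR0
  rcases n with _ | n
  · simp only [LT, Finset.sum_singleton]
    simp
    positivity
  · rw [sum_LT_succ]
    have hA : ∑ m ∈ LT Λ (n + 1), (if ([] : List Λ) = [] ∧ m = [] then 0 else
        wt ev c P1 P2 none (([] : List Λ).reverse ++ x :: m)) ≤ c * ρ' * R := by
      rw [sum_LT_succ]
      simp only [and_self, if_true, zero_add]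
      refine le_trans (Finset.sum_le_sum fun t _ => Finset.sum_le_sum fun m _ => ?_) (hone n)
      rw [if_neg (by simp), hmid]
      simp only [wt, List.head?_nil, List.head?_cons, fac, one_mul]
      exact le_rfl
    have hB : ∑ t, ∑ l ∈ LT Λ n, ∑ m ∈ LT Λ (n + 1), (if t :: l = [] ∧ m = [] then 0 else
        wt ev c P1 P2 none ((t :: l).reverse ++ x :: m)) ≤ c * ρ' * R + c * ρ' * R ^ 2 := by
      have h1 : ∀ t, ∀ l ∈ LT Λ n, ∑ m ∈ LT Λ (n + 1), (if t :: l = [] ∧ m = [] then 0 else
          wt ev c P1 P2 none ((t :: l).reverse ++ x :: m)) ≤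
          c * P1 x t * wt ev c P1 P2 (some x) (t :: l) +
            (c * ∑ t', P2 x t t') * R * wt ev c P1 P2 (some x) (t :: l) := by
        intro t l _
        have hw := wt_nonneg hc h (some x) (t :: l)
        rw [sum_LT_succ]
        refine add_le_add ?_ ?_
        · rw [if_neg (by simp), hmid]
          simp only [List.head?_cons, List.head?_nil, fac, wt, mul_one]
          exact le_of_eq (by ring)
        · have h2 := hside (fun t' => c * P2 x t t') (fun t' => mul_nonneg hc (h.n2 _ _ _))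
            (fun t' ht' => by simp [h.z2 x t t' (Or.inr ht')]) n
          rw [← Finset.mul_sum] at h2
          refine le_trans (le_of_eq ?_) (mul_le_mul_of_nonneg_right h2 hw)
          rw [Finset.sum_mul]
          refine Finset.sum_congr rfl fun t' _ => ?_
          rw [Finset.sum_mul]
          refine Finset.sum_congr rfl fun m _ => ?_
          rw [if_neg (by simp), hmid]
          simp only [List.head?_cons, fac]
          ring
      refine (Finset.sum_le_sum fun t _ => Finset.sum_le_sum fun l hl => h1 t l hl).trans ?_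
      simp_rw [Finset.sum_add_distrib]
      refine add_le_add (hone n) ?_
      refine (hside (fun t => (c * ∑ t', P2 x t t') * R)
        (fun t => mul_nonneg (mul_nonneg hc (Finset.sum_nonneg fun t' _ => h.n2 _ _ _)) hR0)
        (fun t ht => by
          rw [Finset.sum_eq_zero fun t' _ => h.z2 x t t' (Or.inl ht)]
          simp) n).trans ?_
      rw [← Finset.sum_mul, ← Finset.mul_sum]
      have h3 := h.e2 x hx
      calc c * (∑ t, ∑ t', P2 x t t') * R * R = c * (∑ t, ∑ t', P2 x t t') * R ^ 2 := by ring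
        _ ≤ c * ρ' * R ^ 2 := mul_le_mul_of_nonneg_right (mul_le_mul_of_nonneg_left h3 hc) (sq_nonneg _)
    linarith

end weights

/-! ## Probabilities -/

section prob
variable {Λ : Type*} [Fintype Λ] [DecidableEq Λ] {α : Type*} [DecidableEq α]

/-- conflict of two consecutive sites -/
def cfl (ev : Λ → Prop) (cf : Λ → Λ → α → Prop) (ω : Λ → α) (s t : Λ) : Prop :=
  (ev s ∧ ¬ ev t ∧ cf s t (ω s)) ∨ (¬ ev s ∧ ev t ∧ cf t s (ω t))

/-- constraint at the site `s` of a path, neighbours `a`, `b` -/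
def con (ev : Λ → Prop) (cf : Λ → Λ → α → Prop) (s : Λ) (a b : Option Λ) (v : α) : Prop :=
  (ev s → (∀ p ∈ a, ¬ ev p ∧ cf s p v) ∧ (∀ p ∈ b, ¬ ev p ∧ cf s p v)) ∧
    (¬ ev s → (∀ p ∈ a, ev p) ∧ (∀ p ∈ b, ev p))

/-- the constraints at the sites of a path, given the site before it -/
def evt (ev : Λ → Prop) (cf : Λ → Λ → α → Prop) : Option Λ → List Λ → (Λ → α) → Prop
  | _, [], _ => True
  | a, s :: l, ω => con ev cf s a l.head? (ω s) ∧ evt ev cf (some s) l ω

variable {ev : Λ → Prop} {cf : Λ → Λ → α → Prop}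

theorem evt_of_chain (ω : Λ → α) (l : List Λ) (a : Option Λ) (ha : ∀ p ∈ a, ∀ s ∈ l.head?, cfl ev cf ω p s)
    (hl : l.IsChain (cfl ev cf ω)) : evt ev cf a l ω := by
  induction l generalizing a with
  | nil => trivial
  | cons s l ih =>
    rw [List.isChain_cons] at hl
    refine ⟨⟨fun hs => ⟨fun p hp => ?_, fun p hp => ?_⟩, fun hs => ⟨fun p hp => ?_, fun p hp => ?_⟩⟩,
      ih (some s) (fun p hp t ht => ?_) hl.2⟩
    · rcases ha p hp s rfl with h | h
      · exact absurd hs h.2.1
      · exact ⟨h.1, h.2.2⟩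
    · rcases hl.1 p hp with h | h
      · exact ⟨h.2.1, h.2.2⟩
      · exact absurd hs h.1
    · rcases ha p hp s rfl with h | h
      · exact h.1
      · exact absurd h.2.1 hs
    · rcases hl.1 p hp with h | h
      · exact absurd h.1 hs
      · exact h.2.1
    · rw [Option.mem_some_iff] at hp
      subst hp
      exact hl.1 t ht

theorem dep_evt (a : Option Λ) (l : List Λ) : dep l.toFinset (evt ev cf a l) := by
  induction l generalizing a with
  | nil => exact fun _ _ _ => Iff.rfl
  | cons s l ih =>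
    intro ω ω' h
    have h1 : ω s = ω' s := h s (by simp)
    have h2 := ih (some s) ω ω' fun i hi => h i (by
      rw [List.toFinset_cons]
      exact Finset.mem_insert_of_mem hi)
    simp only [evt]
    rw [h1, h2]

theorem dep_site (s : Λ) (A : α → Prop) : dep ({s} : Finset Λ) fun ω : Λ → α => A (ω s) := by
  intro ω ω' h
  show A (ω s) ↔ A (ω' s)
  rw [h s (Finset.mem_singleton_self s)]

open scoped Classical in
theorem cnt_site (S : Λ → Finset α) (s : Λ) (A : α → Prop) :
    cnt S (fun ω => A (ω s)) * (S s).card = ((S s).filter A).card * cnt S fun _ => True := by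
  unfold cnt
  rw [← Nat.cast_mul, ← Nat.cast_mul, ← Finset.card_product, ← Finset.card_product]
  congr 1
  refine Finset.card_nbij' (fun p => (p.1 s, Function.update p.1 s p.2))
    (fun p => (Function.update p.2 s p.1, p.2 s)) ?_ ?_ ?_ ?_
  · rintro ⟨ω, a⟩ hp
    simp only [Finset.coe_product, Set.mem_prod, Finset.mem_coe, Finset.mem_filter, Fintype.mem_piFinset] at hp ⊢
    refine ⟨⟨hp.1.1 s, hp.1.2⟩, fun i => ?_, trivial⟩
    by_cases hi : i = s
    · subst hi
      simpa using hp.2
    · simpa [hi] using hp.1.1 i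
  · rintro ⟨a, ω⟩ hp
    simp only [Finset.coe_product, Set.mem_prod, Finset.mem_coe, Finset.mem_filter, Fintype.mem_piFinset] at hp ⊢
    refine ⟨⟨fun i => ?_, by simpa using hp.1.2⟩, hp.2.1 s⟩
    by_cases hi : i = s
    · subst hi
      simpa using hp.1.1
    · simpa [hi] using hp.2.1 i
  · rintro ⟨ω, a⟩ _
    simp
  · rintro ⟨a, ω⟩ _
    simp

open scoped Classical in
/-- the kernels bound the probabilities of the conflicts at one even site -/
structure PKer (S : Λ → Finset α) (ev : Λ → Prop) (cf : Λ → Λ → α → Prop) (P1 : Λ → Λ → ℝ)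
    (P2 : Λ → Λ → Λ → ℝ) : Prop where
  ne : ∀ i, (S i).Nonempty
  p1 : ∀ x y, ev x → ¬ ev y → (((S x).filter fun a => cf x y a).card : ℝ) ≤ P1 x y * (S x).card
  p2 : ∀ x y y', ev x → ¬ ev y → ¬ ev y' → y ≠ y' →
    (((S x).filter fun a => cf x y a ∧ cf x y' a).card : ℝ) ≤ P2 x y y' * (S x).card

variable {S : Λ → Finset α} {P1 : Λ → Λ → ℝ} {P2 : Λ → Λ → Λ → ℝ}

theorem con_le (hS : PKer S ev cf P1 P2) (h1 : ∀ x y, 0 ≤ P1 x y) (h2 : ∀ x y y', 0 ≤ P2 x y y')
    (s : Λ) (a b : Option Λ) (hab : ∀ p ∈ a, p ∉ b) :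
    cnt S (fun ω => con ev cf s a b (ω s)) ≤ FF ev 1 P1 P2 s a b * cnt S fun _ => True := by
  classical
  have htop := cnt_true_pos hS.ne
  have hs0 : (0 : ℝ) < (S s).card := by exact_mod_cast (hS.ne s).card_pos
  have hs := cnt_site S s (con ev cf s a b)
  -- it is enough to bound the number of values
  have key : (((S s).filter (con ev cf s a b)).card : ℝ) ≤ FF ev 1 P1 P2 s a b * (S s).card →
      cnt S (fun ω => con ev cf s a b (ω s)) ≤ FF ev 1 P1 P2 s a b * cnt S fun _ => True := by
    intro h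
    have h3 : cnt S (fun ω => con ev cf s a b (ω s)) * (S s).card ≤
        (FF ev 1 P1 P2 s a b * cnt S fun _ => True) * (S s).card := by
      rw [hs]
      calc _ ≤ (FF ev 1 P1 P2 s a b * (S s).card) * cnt S (fun _ => True) :=
            mul_le_mul_of_nonneg_right h htop.le
        _ = _ := by ring
    exact le_of_mul_le_mul_right h3 hs0
  apply key
  by_cases he : ev s
  · rw [FF_even he, one_mul]
    have hz : ∀ A : α → Prop, (∀ v, con ev cf s a b v → A v) →
        (((S s).filter (con ev cf s a b)).card : ℝ) ≤ (((S s).filter A).card : ℝ) := by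
      intro A hA
      refine Nat.cast_le.2 (Finset.card_le_card fun v hv => ?_)
      rw [Finset.mem_filter] at hv ⊢
      exact ⟨hv.1, hA v hv.2⟩
    have hf : ((∃ p ∈ a, ev p) ∨ ∃ p ∈ b, ev p) → (((S s).filter (con ev cf s a b)).card : ℝ) = 0 := by
      rintro h
      have : (S s).filter (con ev cf s a b) = ∅ := by
        rw [Finset.filter_eq_empty_iff]
        intro v _ hv
        rcases h with ⟨p, hp, h⟩ | ⟨p, hp, h⟩
        · exact ((hv.1 he).1 p hp).1 h
        · exact ((hv.1 he).2 p hp).1 h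
      rw [this]
      simp
    have hfac : 0 ≤ fac P1 P2 s a b * (S s).card := by
      refine mul_nonneg ?_ hs0.le
      cases a <;> cases b <;> simp [fac, h1, h2]
    by_cases hp : (∃ p ∈ a, ev p) ∨ ∃ p ∈ b, ev p
    · rw [hf hp]
      exact hfac
    · rw [not_or] at hp
      rcases a with _ | y <;> rcases b with _ | y'
      · simp only [fac, one_mul]
        exact Nat.cast_le.2 (Finset.card_filter_le _ _)
      · have hy' : ¬ ev y' := fun h => hp.2 ⟨y', rfl, h⟩
        exact (hz (fun v => cf s y' v) fun v hv => ((hv.1 he).2 y' rfl).2).trans (hS.p1 s y' he hy')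
      · have hy : ¬ ev y := fun h => hp.1 ⟨y, rfl, h⟩
        exact (hz (fun v => cf s y v) fun v hv => ((hv.1 he).1 y rfl).2).trans (hS.p1 s y he hy)
      · have hy : ¬ ev y := fun h => hp.1 ⟨y, rfl, h⟩
        have hy' : ¬ ev y' := fun h => hp.2 ⟨y', rfl, h⟩
        have hne : y ≠ y' := fun h => hab y rfl (by rw [h]; rfl)
        refine le_trans ?_ (hS.p2 s y y' he hy hy' hne)
        refine Nat.cast_le.2 (Finset.card_le_card fun v hv => ?_)
        simp only [Finset.mem_filter] at hv ⊢
        exact ⟨hv.1, ((hv.2.1 he).1 y rfl).2, ((hv.2.1 he).2 y' rfl).2⟩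
  · unfold FF
    rw [if_neg he]
    split_ifs with h
    · have : (S s).filter (con ev cf s a b) = ∅ := by
        rw [Finset.filter_eq_empty_iff]
        intro v _ hv
        rcases h with ⟨p, hp, h⟩ | ⟨p, hp, h⟩
        · exact h ((hv.2 he).1 p hp)
        · exact h ((hv.2 he).2 p hp)
      rw [this]
      simp
    · rw [one_mul]
      exact Nat.cast_le.2 (Finset.card_filter_le _ _)

/-- the probability of a path is at most its weight -/
theorem evt_le (hS : PKer S ev cf P1 P2) (h1 : ∀ x y, 0 ≤ P1 x y) (h2 : ∀ x y y', 0 ≤ P2 x y y')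
    (l : List Λ) (a : Option Λ) (hl : l.Nodup) (ha : ∀ p ∈ a, p ∉ l) :
    cnt S (evt ev cf a l) ≤ wt ev 1 P1 P2 a l * cnt S fun _ => True := by
  classical
  induction l generalizing a with
  | nil =>
    simp only [wt, one_mul]
    exact cnt_mono fun _ _ _ => trivial
  | cons s l ih =>
    have htop := cnt_true_pos hS.ne
    rw [List.nodup_cons] at hl
    have hi := cnt_indep S (V := {s}) (W := l.toFinset)
      (by rw [Finset.disjoint_singleton_left, List.mem_toFinset]; exact hl.1)
      (dep_site s (con ev cf s a l.head?)) (dep_evt (cf := cf) (ev := ev) (some s) l)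
    have h3 := con_le hS h1 h2 s a l.head? (by
      intro p hp hp'
      exact ha p hp (List.mem_cons_of_mem _ (List.mem_of_mem_head? hp')))
    have h4 := ih (some s) hl.2 (by
      intro p hp
      rw [Option.mem_some_iff] at hp
      rw [← hp]
      exact hl.1)
    have h5 : cnt S (evt ev cf a (s :: l)) * cnt S (fun _ => True) ≤
        (FF ev 1 P1 P2 s a l.head? * cnt S fun _ => True) * (wt ev 1 P1 P2 (some s) l * cnt S fun _ => True) := by
      change cnt S (fun ω => con ev cf s a l.head? (ω s) ∧ evt ev cf (some s) l ω) * _ ≤ _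
      rw [hi]
      exact mul_le_mul h3 h4 (cnt_nonneg _ _) ((cnt_nonneg _ _).trans h3)
    rw [wt]
    refine le_of_mul_le_mul_right (h5.trans (le_of_eq ?_)) htop
    ring

/-- the probability that all the edges of a self-avoiding path are conflict edges -/
theorem chain_le (hS : PKer S ev cf P1 P2) (h1 : ∀ x y, 0 ≤ P1 x y) (h2 : ∀ x y y', 0 ≤ P2 x y y')
    (l : List Λ) (hl : l.Nodup) :
    cnt S (fun ω => l.IsChain (cfl ev cf ω)) ≤ wt ev 1 P1 P2 none l * cnt S fun _ => True :=
  (cnt_mono fun ω _ h => evt_of_chain ω l none (by simp) h).trans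
    (evt_le hS h1 h2 l none hl (by simp))

end prob

end Pool.Agent.LC
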