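import Pool.Agent.Lib_MP_2c424f_lc.Perc

/-!
# Conflict paths, continued: local lemma for chains (III.C), long paths with few atypical sites (V.2)
-/

set_option autoImplicit false
set_option linter.unusedSectionVars false

open Finset

namespace Pool.Agent.LC

/-! ## III.C -/

section chains
variable {Λ : Type*} [Fintype Λ] [DecidableEq Λ] {α : Type*} [DecidableEq α]
variable {ev : Λ → Prop} {cf : Λ → Λ → α → Prop} {S : Λ → Finset α} {P1 : Λ → Λ → ℝ} {P2 : Λ → Λ → Λ → ℝ}
variable {ρ b ρ' : ℝ}

/-- a sum over lists containing `x` is at most the sum over the two parts -/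
theorem sum_parts (x : Λ) (A : Finset (List Λ)) (n : ℕ) (hA : ∀ l ∈ A, x ∈ l ∧ l.length ≤ n)
    (g : List Λ → ℝ) (hg : ∀ l, 0 ≤ g l) :
    ∑ l ∈ A, g l ≤ ∑ l ∈ LT Λ n, ∑ m ∈ LT Λ n, g (l.reverse ++ x :: m) := by
  classical
  have hex : ∀ l : List Λ, ∃ p : List Λ × List Λ, x ∈ l → l = p.1.reverse ++ x :: p.2 := by
    intro l
    by_cases h : x ∈ l
    · obtain ⟨s, t, h1⟩ := List.append_of_mem h
      exact ⟨(s.reverse, t), fun _ => by simpa using h1⟩
    · exact ⟨([], []), fun h' => absurd h' h⟩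
  choose ψ hψ using hex
  have hinj : Set.InjOn ψ A := by
    intro l hl m hm h
    rw [hψ l (hA l hl).1, hψ m (hA m hm).1, h]
  rw [← Finset.sum_product']
  calc ∑ l ∈ A, g l = ∑ l ∈ A, g ((ψ l).1.reverse ++ x :: (ψ l).2) :=
        Finset.sum_congr rfl fun l hl => by rw [← hψ l (hA l hl).1]
    _ = ∑ p ∈ A.image ψ, g (p.1.reverse ++ x :: p.2) :=
        (Finset.sum_image (f := fun p : List Λ × List Λ => g (p.1.reverse ++ x :: p.2)) hinj).symm
    _ ≤ ∑ p ∈ LT Λ n ×ˢ LT Λ n, g (p.1.reverse ++ x :: p.2) := by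
        refine Finset.sum_le_sum_of_subset_of_nonneg ?_ fun _ _ _ => hg _
        intro p hp
        obtain ⟨l, hl, rfl⟩ := Finset.mem_image.1 hp
        have h1 := congrArg List.length (hψ l (hA l hl).1)
        have h2 := (hA l hl).2
        rw [List.length_append, List.length_cons, List.length_reverse] at h1
        rw [Finset.mem_product, mem_LT, mem_LT]
        omega

/-- III.C: the local lemma for chains.  `Ev`: the self-avoiding chains (a chain with one site `x` is the event that
`x` meets both colour sets); `p0` bounds the probability of the one-site chains. -/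
theorem paths_lll [DecidablePred ev] (hS : PKer S ev cf P1 P2) (hK : Ker ev P1 P2 ρ b ρ') (hρ : 4 * ρ ≤ 1 / 2)
    (Ev : Finset (List Λ)) (hnd : ∀ l ∈ Ev, l.Nodup) (hne : ∀ l ∈ Ev, ∃ s ∈ l, ev s)
    (E : List Λ → (Λ → α) → Prop) (hdep : ∀ l ∈ Ev, dep (l.toFinset.filter fun s => ev s) (E l))
    (hE : ∀ l ∈ Ev, 2 ≤ l.length → ∀ ω, (∀ i, ω i ∈ S i) → E l ω → l.IsChain (cfl ev cf ω))
    (p0 : ℝ) (hp0 : 0 ≤ p0) (hE1 : ∀ x, ev x → [x] ∈ Ev → cnt S (E [x]) ≤ p0 * cnt S fun _ => True)
    (hsm : 4 * p0 + (2 * (4 * ρ' * (2 * (1 + 4 * b))) + 4 * ρ' * (2 * (1 + 4 * b)) ^ 2) ≤ 1 / 4) :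
    Real.exp (-(2 * ∑ l ∈ Ev, 4 ^ (l.filter fun s => ev s).length * (cnt S (E l) / cnt S fun _ => True))) *
      cnt S (fun _ => True) ≤ cnt S (fun ω => ∀ l ∈ Ev, ¬ E l ω) := by
  classical
  have htop := cnt_true_pos hS.ne
  have hcard : ∀ l ∈ Ev, (l.toFinset.filter fun s => ev s).card = (l.filter fun s => ev s).length := by
    intro l hl
    have h1 : (l.toFinset.filter fun s => ev s) = (l.filter fun s => ev s).toFinset := by
      ext s
      simp
    rw [h1, List.toFinset_card_of_nodup ((hnd l hl).filter _)]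
  have hp0' : ∀ l : List Λ, 0 ≤ cnt S (E l) / cnt S fun _ => True := fun l =>
    div_nonneg (cnt_nonneg _ _) (cnt_nonneg _ _)
  have hmain := lll_exp hS.ne Ev E (fun l => l.toFinset.filter fun s => ev s)
    (fun l hl => by
      obtain ⟨s, hs, hs'⟩ := hne l hl
      exact ⟨s, Finset.mem_filter.2 ⟨List.mem_toFinset.2 hs, hs'⟩⟩) hdep
    (fun l => cnt S (E l) / cnt S fun _ => True) (fun l _ => hp0' l)
    (fun l _ => le_of_eq (div_mul_cancel₀ _ htop.ne').symm) (by
      intro x
      by_cases hx : ev x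
      · set A := (Ev.filter fun l => x ∈ l.toFinset.filter fun s => ev s).filter fun l => l.length ≠ 1 with hA
        have hAm : ∀ l ∈ A, l ∈ Ev ∧ x ∈ l ∧ 2 ≤ l.length := by
          intro l hl
          rw [hA, Finset.mem_filter, Finset.mem_filter] at hl
          have h1 : x ∈ l := List.mem_toFinset.1 (Finset.mem_filter.1 hl.1.2).1
          have h2 : l.length ≠ 0 := fun h => by
            rw [List.length_eq_zero_iff] at h
            subst h
            simp at h1
          exact ⟨hl.1.1, h1, by have := hl.2; omega⟩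
        have hsub : (Ev.filter fun l => x ∈ l.toFinset.filter fun s => ev s) ⊆
            (if [x] ∈ Ev then {[x]} else ∅) ∪ A := by
          intro l hl
          rw [Finset.mem_union]
          by_cases h1 : l.length = 1
          · left
            obtain ⟨y, rfl⟩ := List.length_eq_one_iff.1 h1
            have h2 := (Finset.mem_filter.1 hl).2
            have h3 : x = y := by simpa using (Finset.mem_filter.1 h2).1
            subst h3
            rw [if_pos (Finset.mem_filter.1 hl).1]
            exact Finset.mem_singleton_self _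
          · right
            exact Finset.mem_filter.2 ⟨hl, h1⟩
        have hterm : ∀ l ∈ A, (4 : ℝ) ^ (l.toFinset.filter fun s => ev s).card *
            (cnt S (E l) / cnt S fun _ => True) ≤
              (if l.length = 1 then 0 else wt ev 4 P1 P2 none l) := by
          intro l hl
          obtain ⟨h1, h2, h3⟩ := hAm l hl
          rw [if_neg (by omega), hcard l h1, wt_const]
          refine mul_le_mul_of_nonneg_left ?_ (by positivity)
          rw [div_le_iff₀ htop]
          exact (cnt_mono fun ω hω h => hE l h1 h3 ω hω h).trans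
            (chain_le hS hK.n1 hK.n2 l (hnd l h1))
        have h4 : ∑ l ∈ A, (if l.length = 1 then 0 else wt ev 4 P1 P2 none l) ≤
            2 * (4 * ρ' * (2 * (1 + 4 * b))) + 4 * ρ' * (2 * (1 + 4 * b)) ^ 2 := by
          refine (sum_parts x A (Fintype.card Λ) (fun l hl => ⟨(hAm l hl).2.1, ?_⟩) _ ?_).trans ?_
          · exact (hnd l (hAm l hl).1).length_le_card
          · intro l
            split_ifs
            · exact le_rfl
            · exact wt_nonneg (by norm_num) hK _ _
          · refine le_trans (Finset.sum_le_sum fun l _ => Finset.sum_le_sum fun m _ => ?_)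
              (sum_mid (c := 4) (by norm_num) hK hρ (Fintype.card Λ) hx)
            by_cases h5 : l = [] ∧ m = []
            · rw [if_pos h5, h5.1, h5.2]
              simp
            · rw [if_neg h5, if_neg]
              intro h6
              apply h5
              rw [List.length_append, List.length_reverse, List.length_cons] at h6
              exact ⟨List.length_eq_zero_iff.1 (by omega), List.length_eq_zero_iff.1 (by omega)⟩
        have h5 : ∑ l ∈ (if [x] ∈ Ev then ({[x]} : Finset (List Λ)) else ∅),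
            (4 : ℝ) ^ (l.toFinset.filter fun s => ev s).card * (cnt S (E l) / cnt S fun _ => True) ≤ 4 * p0 := by
          split_ifs with h6
          · rw [Finset.sum_singleton]
            have h7 : (([x] : List Λ).toFinset.filter fun s => ev s).card = 1 := by
              rw [hcard _ h6]
              simp [hx]
            rw [h7, pow_one]
            refine mul_le_mul_of_nonneg_left ?_ (by norm_num)
            rw [div_le_iff₀ htop]
            exact hE1 x hx h6
          · rw [Finset.sum_empty]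
            linarith
        calc _ ≤ ∑ l ∈ (if [x] ∈ Ev then {[x]} else ∅) ∪ A,
              (4 : ℝ) ^ (l.toFinset.filter fun s => ev s).card * (cnt S (E l) / cnt S fun _ => True) :=
              Finset.sum_le_sum_of_subset_of_nonneg hsub fun l _ _ => mul_nonneg (by positivity) (hp0' l)
          _ ≤ ∑ l ∈ (if [x] ∈ Ev then {[x]} else ∅),
              (4 : ℝ) ^ (l.toFinset.filter fun s => ev s).card * (cnt S (E l) / cnt S fun _ => True) +
              ∑ l ∈ A, (4 : ℝ) ^ (l.toFinset.filter fun s => ev s).card *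
                (cnt S (E l) / cnt S fun _ => True) := by
              rw [← Finset.sum_union_inter]
              exact le_add_of_nonneg_right (Finset.sum_nonneg fun l _ => mul_nonneg (by positivity) (hp0' l))
          _ ≤ 4 * p0 + (2 * (4 * ρ' * (2 * (1 + 4 * b))) + 4 * ρ' * (2 * (1 + 4 * b)) ^ 2) :=
              add_le_add h5 ((Finset.sum_le_sum hterm).trans h4)
          _ ≤ 1 / 4 := hsm
      · have : (Ev.filter fun l => x ∈ l.toFinset.filter fun s => ev s) = ∅ := by
          rw [Finset.filter_eq_empty_iff]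
          intro l _ h
          exact hx (Finset.mem_filter.1 h).2
        rw [this, Finset.sum_empty]
        norm_num)
  have hsum : ∑ l ∈ Ev, (4 : ℝ) ^ (l.toFinset.filter fun s => ev s).card *
      (cnt S (E l) / cnt S fun _ => True) =
      ∑ l ∈ Ev, 4 ^ (l.filter fun s => ev s).length * (cnt S (E l) / cnt S fun _ => True) :=
    Finset.sum_congr rfl fun l hl => by rw [hcard l hl]
  rw [hsum] at hmain
  exact hmain

/-- III.D: expected number (with the weights `c^e`) of the self-avoiding conflict paths with `n + 1` steps in a set of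
lists -/
theorem paths_sum [DecidablePred ev] (hS : PKer S ev cf P1 P2) (hK : Ker ev P1 P2 ρ b ρ') (c : ℝ) (hc : 0 ≤ c)
    (n : ℕ) (A : Finset (List Λ)) (hA : ∀ l ∈ A, l.Nodup ∧ l.length = n + 2) :
    ∑ l ∈ A, c ^ (l.filter fun s => ev s).length *
        (cnt S (fun ω => l.IsChain (cfl ev cf ω)) / cnt S fun _ => True) ≤
      Fintype.card Λ * ((2 * (c * ρ') + c * ρ + c * ρ' * (c * b)) * (c * ρ) ^ (n / 2)) := by
  have htop := cnt_true_pos hS.ne
  refine le_trans ?_ (sum_all hc hK n)
  calc _ ≤ ∑ l ∈ A, wt ev c P1 P2 none l := by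
        refine Finset.sum_le_sum fun l hl => ?_
        rw [wt_const]
        refine mul_le_mul_of_nonneg_left ?_ (by positivity)
        rw [div_le_iff₀ htop]
        exact chain_le hS hK.n1 hK.n2 l (hA l hl).1
    _ ≤ ∑ l ∈ LL Λ (n + 2), wt ev c P1 P2 none l :=
        Finset.sum_le_sum_of_subset_of_nonneg (fun l hl => (mem_LL _ _).2 (hA l hl).2)
          fun l _ _ => wt_nonneg hc hK _ _

end chains

/-! ## V.2 -/

section long
variable {Λ : Type*} [Fintype Λ] [DecidableEq Λ] {α : Type*} [DecidableEq α]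
variable {ev : Λ → Prop} {cf : Λ → Λ → α → Prop} {S : Λ → Finset α} {P1 : Λ → Λ → ℝ} {P2 : Λ → Λ → Λ → ℝ}
variable {ρ D : ℝ}

/-- kernel bounds with atypical sites: rows `≤ ρ` at the typical odd sites, `≤ D` everywhere -/
structure KerA (ev at' : Λ → Prop) (P1 : Λ → Λ → ℝ) (P2 : Λ → Λ → Λ → ℝ) (ρ D : ℝ) : Prop where
  n1 : ∀ x y, 0 ≤ P1 x y
  n2 : ∀ x y y', 0 ≤ P2 x y y'
  z1 : ∀ x y, ev y → P1 x y = 0
  z2 : ∀ x y y', ev y ∨ ev y' → P2 x y y' = 0
  r0 : 0 < ρ
  r1 : ρ ≤ 1
  d1 : 1 ≤ D
  od : ∀ y, at' y → ¬ ev y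
  ty : ∀ y, ¬ ev y → ¬ at' y → ∑ x, ∑ y', P2 x y y' ≤ ρ
  o2 : ∀ y, ¬ ev y → ∑ x, ∑ y', P2 x y y' ≤ D
  o1 : ∀ y, ¬ ev y → ∑ x, P1 x y ≤ D
  e1 : ∀ x, ev x → ∑ y, P1 x y ≤ D

open scoped Classical in
/-- indicator of fewer than `m` atypical sites -/
noncomputable def few (at' : Λ → Prop) (m : ℕ) (l : List Λ) : ℝ := if (l.filter fun s => at' s).length < m then 1 else 0

variable {at' : Λ → Prop}

theorem few_nonneg (m : ℕ) (l : List Λ) : 0 ≤ few at' m l := by
  unfold few
  split_ifs <;> norm_num

theorem few_le_one (m : ℕ) (l : List Λ) : few at' m l ≤ 1 := by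
  unfold few
  split_ifs <;> norm_num

theorem few_cons_neg (m : ℕ) {s : Λ} (hs : ¬ at' s) (l : List Λ) : few at' m (s :: l) = few at' m l := by
  classical
  unfold few
  rw [List.filter_cons_of_neg (by simpa using hs)]

theorem few_cons_pos (m : ℕ) {s : Λ} (hs : at' s) (l : List Λ) : few at' (m + 1) (s :: l) = few at' m l := by
  classical
  unfold few
  rw [List.filter_cons_of_pos (by simpa using hs), List.length_cons]
  simp only [Nat.add_lt_add_iff_right]

theorem few_zero (l : List Λ) : few at' 0 l = 0 := by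
  unfold few
  rw [if_neg (by omega)]

theorem wtA_nonneg (h : KerA ev at' P1 P2 ρ D) (x : Option Λ) (l : List Λ) : 0 ≤ wt ev 1 P1 P2 x l := by
  induction l generalizing x with
  | nil => exact zero_le_one
  | cons s l ih =>
    refine mul_nonneg ?_ (ih _)
    unfold FF
    split_ifs
    · refine mul_nonneg zero_le_one ?_
      cases x <;> cases l.head? <;> simp [fac, h.n1, h.n2]
    · exact le_rfl
    · exact zero_le_one

/-- two steps from the odd site `y` -/
theorem stepA (h : KerA ev at' P1 P2 ρ D) {y : Λ} (hy : ¬ ev y) (T : Finset (List Λ)) (m : ℕ) {B r : ℝ}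
    (hB : ∀ t, ¬ ev t → ∑ l ∈ T, few at' m (t :: l) * wt ev 1 P1 P2 (some t) l ≤ B) (hB0 : 0 ≤ B)
    (hr : ∑ x, ∑ y', P2 x y y' ≤ r) :
    ∑ s, ∑ t, ∑ l ∈ T, few at' m (s :: t :: l) * wt ev 1 P1 P2 (some y) (s :: t :: l) ≤ r * B := by
  have h1 : ∀ s t, ∑ l ∈ T, few at' m (s :: t :: l) * wt ev 1 P1 P2 (some y) (s :: t :: l) ≤ P2 s y t * B := by
    intro s t
    by_cases hs : ev s
    · by_cases ht : ev t
      · have h2 : ∀ l ∈ T, few at' m (s :: t :: l) * wt ev 1 P1 P2 (some y) (s :: t :: l) = 0 := by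
          intro l _
          simp [wt, FF_even hs, fac, h.z2 s y t (Or.inr ht)]
        rw [Finset.sum_eq_zero h2, h.z2 s y t (Or.inr ht), zero_mul]
      · have hsa : ¬ at' s := fun h' => h.od s h' hs
        have h2 : ∀ l ∈ T, few at' m (s :: t :: l) * wt ev 1 P1 P2 (some y) (s :: t :: l) ≤
            P2 s y t * (few at' m (t :: l) * wt ev 1 P1 P2 (some t) l) := by
          intro l _
          rw [few_cons_neg m hsa]
          simp only [wt, List.head?_cons, FF_even hs, fac]
          have h3 := FF_odd_le (c := 1) (P1 := P1) (P2 := P2) ht (some s) l.head?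
          have h4 := wtA_nonneg h (some t) l
          have h5 := h.n2 s y t
          have h6 := few_nonneg (at' := at') m (t :: l)
          have h7 : FF ev 1 P1 P2 t (some s) l.head? * wt ev 1 P1 P2 (some t) l ≤ wt ev 1 P1 P2 (some t) l := by
            calc _ ≤ 1 * wt ev 1 P1 P2 (some t) l := mul_le_mul_of_nonneg_right h3 h4
              _ = _ := one_mul _
          calc _ = P2 s y t * few at' m (t :: l) * (FF ev 1 P1 P2 t (some s) l.head? *
                wt ev 1 P1 P2 (some t) l) := by ring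
            _ ≤ P2 s y t * few at' m (t :: l) * wt ev 1 P1 P2 (some t) l :=
                mul_le_mul_of_nonneg_left h7 (mul_nonneg h5 h6)
            _ = _ := by ring
        refine (Finset.sum_le_sum h2).trans ?_
        rw [← Finset.mul_sum]
        exact mul_le_mul_of_nonneg_left (hB t ht) (h.n2 _ _ _)
    · have h2 : ∀ l ∈ T, few at' m (s :: t :: l) * wt ev 1 P1 P2 (some y) (s :: t :: l) = 0 := by
        intro l _
        rw [wt, FF_odd_zero hs hy, zero_mul, mul_zero]
      rw [Finset.sum_eq_zero h2]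
      exact mul_nonneg (h.n2 _ _ _) hB0
  calc _ ≤ ∑ s, ∑ t, P2 s y t * B := Finset.sum_le_sum fun s _ => Finset.sum_le_sum fun t _ => h1 s t
    _ = (∑ s, ∑ t, P2 s y t) * B := by
      rw [Finset.sum_mul]
      refine Finset.sum_congr rfl fun s _ => ?_
      rw [Finset.sum_mul]
    _ ≤ r * B := mul_le_mul_of_nonneg_right hr hB0

/-- paths from the odd site `y` with fewer than `m` atypical sites (`y` counted), `T k` a family of lists -/
theorem longA (h : KerA ev at' P1 P2 ρ D) (T : ℕ → Finset (List Λ)) (B : ℝ) (hB : 1 ≤ B)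
    (hT0 : ∀ y, ¬ ev y → ∑ l ∈ T 0, wt ev 1 P1 P2 (some y) l ≤ B)
    (hT : ∀ k (f : List Λ → ℝ), ∑ l ∈ T (k + 1), f l = ∑ s, ∑ t, ∑ l ∈ T k, f (s :: t :: l))
    (k : ℕ) : ∀ (m : ℕ) (y : Λ), ¬ ev y →
      ∑ l ∈ T k, few at' m (y :: l) * wt ev 1 P1 P2 (some y) l ≤ ρ ^ k * (D / ρ) ^ m * B := by
  have hDρ : 1 ≤ D / ρ := by
    rw [one_le_div h.r0]
    exact h.r1.trans h.d1
  have hB0 : 0 ≤ B := zero_le_one.trans hB
  induction k with
  | zero =>
    intro m y hy
    have h1 : ∑ l ∈ T 0, few at' m (y :: l) * wt ev 1 P1 P2 (some y) l ≤ B := by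
      refine le_trans (Finset.sum_le_sum fun l _ => ?_) (hT0 y hy)
      calc _ ≤ 1 * wt ev 1 P1 P2 (some y) l := mul_le_mul_of_nonneg_right (few_le_one _ _) (wtA_nonneg h _ _)
        _ = _ := one_mul _
    rw [pow_zero, one_mul]
    calc _ ≤ B := h1
      _ = 1 * B := (one_mul _).symm
      _ ≤ _ := mul_le_mul_of_nonneg_right (one_le_pow₀ hDρ) hB0
  | succ k ih =>
    intro m y hy
    have hp : 0 ≤ ρ ^ k * (D / ρ) ^ m * B :=
      mul_nonneg (mul_nonneg (pow_nonneg h.r0.le _) (pow_nonneg (zero_le_one.trans hDρ) _)) hB0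
    rw [hT]
    by_cases ha : at' y
    · rcases m with _ | m
      · rw [Finset.sum_eq_zero fun s _ => Finset.sum_eq_zero fun t _ => Finset.sum_eq_zero fun l _ => by
          rw [few_zero, zero_mul]]
        exact mul_nonneg (mul_nonneg (pow_nonneg h.r0.le _) (pow_nonneg (zero_le_one.trans hDρ) _)) hB0
      · simp_rw [few_cons_pos m ha]
        refine (stepA h hy (T k) m (fun t ht => ih m t ht) (mul_nonneg (mul_nonneg (pow_nonneg h.r0.le _)
          (pow_nonneg (zero_le_one.trans hDρ) _)) hB0) (h.o2 y hy)).trans (le_of_eq ?_)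
        rw [pow_succ, pow_succ]
        have := h.r0.ne'
        field_simp
    · simp_rw [few_cons_neg m ha]
      refine (stepA h hy (T k) m (fun t ht => ih m t ht) hp (h.ty y hy ha)).trans (le_of_eq ?_)
      rw [pow_succ]
      ring

/-- all paths from `p` with `n + 1` steps and fewer than `m` atypical sites -/
theorem longB (h : KerA ev at' P1 P2 ρ D) (n m : ℕ) (p : Λ) :
    ∑ l ∈ LL Λ (n + 1), few at' m (p :: l) * wt ev 1 P1 P2 none (p :: l) ≤
      D ^ 2 * (ρ ^ (n / 2) * (D / ρ) ^ m) := by
  have hDρ : 1 ≤ D / ρ := by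
    rw [one_le_div h.r0]
    exact h.r1.trans h.d1
  have hD0 : 0 ≤ D := zero_le_one.trans h.d1
  have hE : ∀ k y, ¬ ev y → ∑ l ∈ LL Λ (2 * k), few at' m (y :: l) * wt ev 1 P1 P2 (some y) l ≤
      ρ ^ k * (D / ρ) ^ m * 1 := by
    intro k y hy
    refine longA h (fun k => LL Λ (2 * k)) 1 le_rfl (fun y _ => ?_) (fun k f => ?_) k m y hy
    · simp [LL, wt]
    · rw [show 2 * (k + 1) = 2 * k + 1 + 1 from rfl, sum_LL_succ]
      exact Finset.sum_congr rfl fun s _ => sum_LL_succ _ _
  have hO : ∀ k y, ¬ ev y → ∑ l ∈ LL Λ (2 * k + 1), few at' m (y :: l) * wt ev 1 P1 P2 (some y) l ≤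
      ρ ^ k * (D / ρ) ^ m * D := by
    intro k y hy
    refine longA h (fun k => LL Λ (2 * k + 1)) D h.d1 (fun y hy => ?_) (fun k f => ?_) k m y hy
    · rw [sum_LL_succ]
      refine le_trans (Finset.sum_le_sum fun s _ => ?_) (h.o1 y hy)
      simp only [LL, Finset.sum_singleton]
      by_cases hs : ev s
      · simp [wt, FF_even hs, fac]
      · rw [wt, FF_odd_zero hs hy, zero_mul]
        exact h.n1 _ _
    · rw [show 2 * (k + 1) + 1 = (2 * k + 1) + 1 + 1 from rfl, sum_LL_succ]
      exact Finset.sum_congr rfl fun s _ => sum_LL_succ _ _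
  have hq : 0 ≤ (D / ρ) ^ m := pow_nonneg (zero_le_one.trans hDρ) _
  have hD1 : D ≤ D ^ 2 := by nlinarith [h.d1]
  have hD2 : 1 ≤ D ^ 2 := by nlinarith [h.d1]
  by_cases hp : ev p
  · -- even start
    have hst : ∀ (T : Finset (List Λ)) (B : ℝ), 0 ≤ B →
        (∀ t, ¬ ev t → ∑ l ∈ T, few at' m (t :: l) * wt ev 1 P1 P2 (some t) l ≤ B) →
        ∑ t, ∑ l ∈ T, few at' m (p :: t :: l) * wt ev 1 P1 P2 none (p :: t :: l) ≤ D * B := by
      intro T B hB0 hB
      have hpa : ¬ at' p := fun h' => h.od p h' hp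
      have h1 : ∀ t, ∑ l ∈ T, few at' m (p :: t :: l) * wt ev 1 P1 P2 none (p :: t :: l) ≤ P1 p t * B := by
        intro t
        by_cases ht : ev t
        · rw [Finset.sum_eq_zero fun l _ => by
            simp [wt, FF_even hp, fac, h.z1 p t ht], h.z1 p t ht, zero_mul]
        · refine le_trans (Finset.sum_le_sum fun l _ => ?_) (le_of_eq_of_le (Finset.mul_sum _ _ _).symm
            (mul_le_mul_of_nonneg_left (hB t ht) (h.n1 p t)))
          rw [few_cons_neg m hpa]
          simp only [wt, List.head?_cons, FF_even hp, fac]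
          have h3 := FF_odd_le (c := 1) (P1 := P1) (P2 := P2) ht (some p) l.head?
          have h4 := wtA_nonneg h (some t) l
          have h5 := h.n1 p t
          have h6 := few_nonneg (at' := at') m (t :: l)
          have h7 : FF ev 1 P1 P2 t (some p) l.head? * wt ev 1 P1 P2 (some t) l ≤ wt ev 1 P1 P2 (some t) l := by
            calc _ ≤ 1 * wt ev 1 P1 P2 (some t) l := mul_le_mul_of_nonneg_right h3 h4
              _ = _ := one_mul _
          calc _ = P1 p t * few at' m (t :: l) * (FF ev 1 P1 P2 t (some p) l.head? *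
                wt ev 1 P1 P2 (some t) l) := by ring
            _ ≤ P1 p t * few at' m (t :: l) * wt ev 1 P1 P2 (some t) l :=
                mul_le_mul_of_nonneg_left h7 (mul_nonneg h5 h6)
            _ = _ := by ring
      refine (Finset.sum_le_sum fun t _ => h1 t).trans ?_
      rw [← Finset.sum_mul]
      exact mul_le_mul_of_nonneg_right (h.e1 p hp) hB0
    rw [sum_LL_succ]
    rcases Nat.even_or_odd' n with ⟨k, rfl | rfl⟩
    · have hdiv : 2 * k / 2 = k := by omega
      have hpk : 0 ≤ ρ ^ k := pow_nonneg h.r0.le _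
      refine (hst _ _ (mul_nonneg (mul_nonneg hpk hq) zero_le_one) (hE k)).trans ?_
      rw [hdiv, mul_one]
      exact mul_le_mul_of_nonneg_right hD1 (mul_nonneg hpk hq)
    · have hdiv : (2 * k + 1) / 2 = k := by omega
      have hpk : 0 ≤ ρ ^ k := pow_nonneg h.r0.le _
      refine (hst _ _ (mul_nonneg (mul_nonneg hpk hq) hD0) (hO k)).trans (le_of_eq ?_)
      rw [hdiv]
      ring
  · -- odd start
    have hst : ∀ l : List Λ, few at' m (p :: l) * wt ev 1 P1 P2 none (p :: l) ≤
        few at' m (p :: l) * wt ev 1 P1 P2 (some p) l := by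
      intro l
      refine mul_le_mul_of_nonneg_left ?_ (few_nonneg _ _)
      rw [wt]
      calc _ ≤ 1 * wt ev 1 P1 P2 (some p) l :=
            mul_le_mul_of_nonneg_right (FF_odd_le hp _ _) (wtA_nonneg h _ _)
        _ = _ := one_mul _
    refine (Finset.sum_le_sum fun l _ => hst l).trans ?_
    rcases Nat.even_or_odd' n with ⟨k, rfl | rfl⟩
    · have hdiv : 2 * k / 2 = k := by omega
      have hpk : 0 ≤ ρ ^ k := pow_nonneg h.r0.le _
      refine (hO k p hp).trans ?_
      rw [hdiv, mul_comm]
      exact mul_le_mul_of_nonneg_right hD1 (mul_nonneg hpk hq)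
    · have hdiv : (2 * k + 1) / 2 = k := by omega
      have hpk : 0 ≤ ρ ^ k := pow_nonneg h.r0.le _
      have h1 := hE (k + 1) p hp
      rw [show 2 * (k + 1) = 2 * k + 1 + 1 from rfl] at h1
      refine h1.trans ?_
      rw [hdiv, mul_one, pow_succ]
      calc ρ ^ k * ρ * (D / ρ) ^ m = ρ * (ρ ^ k * (D / ρ) ^ m) := by ring
        _ ≤ D ^ 2 * (ρ ^ k * (D / ρ) ^ m) :=
          mul_le_mul_of_nonneg_right (h.r1.trans hD2) (mul_nonneg hpk hq)

open scoped Classical in
/-- V.2: expected number of the starting points in `P0` of self-avoiding conflict paths with `n + 1` steps and fewer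
than `m` atypical sites -/
theorem exp_starts (hS : PKer S ev cf P1 P2) (h : KerA ev at' P1 P2 ρ D) (P0 : Finset Λ) (n m : ℕ) :
    ∑ p ∈ P0, cnt S (fun ω => ∃ l : List Λ, l.length = n + 1 ∧ (p :: l).Nodup ∧
        (p :: l).IsChain (cfl ev cf ω) ∧ ((p :: l).filter fun s => at' s).length < m) ≤
      P0.card * (D ^ 2 * (ρ ^ (n / 2) * (D / ρ) ^ m)) * cnt S fun _ => True := by
  have hp : ∀ p ∈ P0, cnt S (fun ω => ∃ l : List Λ, l.length = n + 1 ∧ (p :: l).Nodup ∧
        (p :: l).IsChain (cfl ev cf ω) ∧ ((p :: l).filter fun s => at' s).length < m) ≤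
      D ^ 2 * (ρ ^ (n / 2) * (D / ρ) ^ m) * cnt S fun _ => True := by
    intro p _
    set A := (LL Λ (n + 1)).filter fun l => (p :: l).Nodup ∧ ((p :: l).filter fun s => at' s).length < m with hA
    have h1 : cnt S (fun ω => ∃ l : List Λ, l.length = n + 1 ∧ (p :: l).Nodup ∧
        (p :: l).IsChain (cfl ev cf ω) ∧ ((p :: l).filter fun s => at' s).length < m) ≤
        ∑ l ∈ A, cnt S (fun ω => (p :: l).IsChain (cfl ev cf ω)) := by
      have h2 : ∀ B : Finset (List Λ), cnt S (fun ω => ∃ l ∈ B, (p :: l).IsChain (cfl ev cf ω)) ≤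
          ∑ l ∈ B, cnt S (fun ω => (p :: l).IsChain (cfl ev cf ω)) := by
        intro B
        induction B using Finset.induction_on with
        | empty =>
          rw [Finset.sum_empty]
          have : cnt S (fun ω => ∃ l ∈ (∅ : Finset (List Λ)), (p :: l).IsChain (cfl ev cf ω)) ≤
              cnt S (fun _ : Λ → α => False) := cnt_mono fun ω _ h => by
            obtain ⟨l, hl, _⟩ := h
            simp at hl
          refine this.trans ?_
          unfold cnt
          simp
        | insert a B ha ih =>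
          rw [Finset.sum_insert ha]
          have h3 := cnt_split S (fun ω => (p :: a).IsChain (cfl ev cf ω))
            (fun ω => ∃ l ∈ insert a B, (p :: l).IsChain (cfl ev cf ω))
          have h4 : cnt S (fun ω => (p :: a).IsChain (cfl ev cf ω) ∧
              ∃ l ∈ insert a B, (p :: l).IsChain (cfl ev cf ω)) ≤
              cnt S (fun ω => (p :: a).IsChain (cfl ev cf ω)) := cnt_mono fun ω _ h => h.1
          have h5 : cnt S (fun ω => ¬ (p :: a).IsChain (cfl ev cf ω) ∧
              ∃ l ∈ insert a B, (p :: l).IsChain (cfl ev cf ω)) ≤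
              cnt S (fun ω => ∃ l ∈ B, (p :: l).IsChain (cfl ev cf ω)) := cnt_mono fun ω _ h => by
            obtain ⟨h6, l, hl, h7⟩ := h
            rcases Finset.mem_insert.1 hl with rfl | hl
            · exact absurd h7 h6
            · exact ⟨l, hl, h7⟩
          linarith
      refine (cnt_mono fun ω _ h => ?_).trans (h2 A)
      obtain ⟨l, hl1, hl2, hl3, hl4⟩ := h
      exact ⟨l, Finset.mem_filter.2 ⟨(mem_LL _ _).2 hl1, hl2, hl4⟩, hl3⟩
    refine h1.trans ?_
    have htop : 0 ≤ cnt S fun _ : Λ → α => True := cnt_nonneg _ _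
    calc ∑ l ∈ A, cnt S (fun ω => (p :: l).IsChain (cfl ev cf ω))
        ≤ ∑ l ∈ A, few at' m (p :: l) * wt ev 1 P1 P2 none (p :: l) * cnt S fun _ => True := by
          refine Finset.sum_le_sum fun l hl => ?_
          have hl' := (Finset.mem_filter.1 hl).2
          have h3 : few at' m (p :: l) = 1 := by
            unfold few
            rw [if_pos hl'.2]
          rw [h3, one_mul]
          exact chain_le hS h.n1 h.n2 _ hl'.1
      _ ≤ ∑ l ∈ LL Λ (n + 1), few at' m (p :: l) * wt ev 1 P1 P2 none (p :: l) * cnt S fun _ => True :=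
          Finset.sum_le_sum_of_subset_of_nonneg (Finset.filter_subset _ _) fun l _ _ =>
            mul_nonneg (mul_nonneg (few_nonneg _ _) (wtA_nonneg h _ _)) htop
      _ = (∑ l ∈ LL Λ (n + 1), few at' m (p :: l) * wt ev 1 P1 P2 none (p :: l)) * cnt S fun _ => True := by
          rw [Finset.sum_mul]
      _ ≤ _ := mul_le_mul_of_nonneg_right (longB h n m p) htop
  refine (Finset.sum_le_sum hp).trans (le_of_eq ?_)
  rw [Finset.sum_const, nsmul_eq_mul]
  ring

end long

end Pool.Agent.LC
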